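import Pool.Agent.RandomLOT.PC

/-!
# Blocks: boundary words of discs with simple boundary made of tiles
-/

set_option autoImplicit false

open scoped BigOperators

namespace Pool.Agent.RandomLOT

open Pool.Agent.FoxAsph

/-- the inverse letter -/
def linv {X : Type} (l : X × Bool) : X × Bool := (l.1, !l.2)

@[simp] theorem linv_linv {X : Type} (l : X × Bool) : linv (linv l) = l := by
  simp [linv]

theorem mk_linv {X : Type} (l : X × Bool) :
    FreeGroup.mk [linv l] = (FreeGroup.mk [l])⁻¹ := by
  simp [linv, FreeGroup.inv_mk, FreeGroup.invRev]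

theorem mk_append {X : Type} (A B : Word X) :
    FreeGroup.mk (A ++ B) = FreeGroup.mk A * FreeGroup.mk B := FreeGroup.mul_mk.symm

theorem mk_cons {X : Type} (l : X × Bool) (B : Word X) :
    FreeGroup.mk (l :: B) = FreeGroup.mk [l] * FreeGroup.mk B := by
  rw [← mk_append]; rfl

/-- A system of tiles for the relators `rel`: darts are the corners of the (oriented) tiles, each with
the letter of the side of the tile that ends at this corner. -/
structure TileSys {X ι : Type} [DecidableEq ι] (rel : ι → Word X) where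
  /-- darts -/
  D : Type
  /-- the letter of a dart -/
  letter : D → X × Bool
  /-- the next dart around the tile -/
  next : D → D
  /-- the same side in the mirror image of the tile -/
  mir : D → D
  /-- the word of the tile after the dart -/
  rho : D → FreeGroup X
  /-- the class of the tile, the dart starting at the base point -/
  kap : D → Cls rel
  /-- orientation of the tile -/
  sg : D → Bool
  /-- weight of the corner between a dart and the next one -/
  wt : D → ℝ
  letter_mir : ∀ d, letter (mir d) = linv (letter d)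
  mir_mir : ∀ d, mir (mir d) = d
  rho_mir : ∀ d, rho (mir d) = (rho d)⁻¹
  kap_mir : ∀ d, kap (mir d) = - act rel (FreeGroup.mk [letter d])⁻¹ (kap d)
  sg_mir : ∀ d, sg (mir d) = !sg d
  wt_nonneg : ∀ d, 0 ≤ wt d
  pr_rho : ∀ d, pr rel (rho d) = pr rel (FreeGroup.mk [letter d])⁻¹
  tile : ∀ i s, ∃ ds : List D, ds ≠ [] ∧ FreeGroup.mk (ds.map letter) = relE rel i s ∧
    ds.map next = ds.rotate 1 ∧
    (∀ d ∈ ds, sg d = s) ∧ 2 ≤ (ds.map fun d => 1 - wt d).sum ∧
    ∀ A d C, ds = A ++ d :: C →
      rho d = FreeGroup.mk (C.map letter) * FreeGroup.mk (A.map letter) ∧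
      act rel (FreeGroup.mk (A.map letter)) (kap d) = clsE rel i s

variable {X ι : Type} [DecidableEq ι] {rel : ι → Word X} (S : TileSys rel)

namespace TileSys

/-- the word of a list of darts -/
def W (ds : List S.D) : FreeGroup X := FreeGroup.mk (ds.map S.letter)

theorem W_append (A B : List S.D) : S.W (A ++ B) = S.W A * S.W B := by
  unfold W
  rw [List.map_append, mk_append]

theorem W_cons (a : S.D) (B : List S.D) : S.W (a :: B) = FreeGroup.mk [S.letter a] * S.W B := by
  unfold W
  rw [List.map_cons, mk_cons]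

theorem W_nil : S.W [] = 1 := rfl

/-- The algebraic data of a block with boundary darts `ds`: its word is a product of `n` conjugates of
relators of class `c`, and the tile of one boundary dart, or the two tiles of two boundary darts of
different orientation, can be removed. -/
structure Alg (ds : List S.D) (n : ℕ) (c : Cls rel) : Prop where
  pc : PC rel n (S.W ds) c
  s1 : ∀ A t C, ds = A ++ t :: C → ∃ m, n = m + 1 ∧
    PC rel m (S.W A * (S.rho t)⁻¹ * S.W C) (c - act rel (S.W A) (S.kap t))
  s2 : ∀ A t B u C, ds = A ++ t :: (B ++ u :: C) → S.sg t ≠ S.sg u → ∃ m, n = m + 2 ∧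
    PC rel m (S.W A * (S.rho t)⁻¹ * S.W B * (S.rho u)⁻¹ * S.W C)
      (c - act rel (S.W A) (S.kap t) - act rel (S.W (A ++ t :: B)) (S.kap u))

theorem split1 {α : Type} {P Q A C : List α} {t : α} (h : P ++ Q = A ++ t :: C) :
    (∃ C0, P = A ++ t :: C0 ∧ C = C0 ++ Q) ∨ (∃ A0, A = P ++ A0 ∧ Q = A0 ++ t :: C) := by
  rw [List.append_eq_append_iff] at h
  rcases h with ⟨a, ha, hb⟩ | ⟨c, hc, hd⟩
  · right; exact ⟨a, ha, hb⟩
  · cases c with
    | nil => right; refine ⟨[], ?_, ?_⟩ <;> simp_all
    | cons x c =>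
      left
      rw [List.cons_append, List.cons.injEq] at hd
      obtain ⟨rfl, rfl⟩ := hd
      exact ⟨c, hc, rfl⟩

variable {S}

theorem Alg.pr_eq {ds : List S.D} {n : ℕ} {c : Cls rel} (h : S.Alg ds n c) :
    pr rel (S.W ds) = 1 := h.pc.pr_eq

theorem pr_rho' (d : S.D) : pr rel (S.rho d) = (pr rel (FreeGroup.mk [S.letter d]))⁻¹ := by
  rw [S.pr_rho, map_inv]

/-- cyclic rotation of a block -/
theorem Alg.rot {d : S.D} {ds : List S.D} {n : ℕ} {c : Cls rel} (h : S.Alg (d :: ds) n c) :
    S.Alg (ds ++ [d]) n (act rel (FreeGroup.mk [S.letter d])⁻¹ c) := by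
  have hpr := h.pr_eq
  rw [W_cons, map_mul] at hpr
  have hpr' : pr rel (S.W ds) = (pr rel (FreeGroup.mk [S.letter d]))⁻¹ := by
    rw [eq_inv_iff_mul_eq_one]
    have := congrArg (fun z => (pr rel (FreeGroup.mk [S.letter d]))⁻¹ * z
      * pr rel (FreeGroup.mk [S.letter d])) hpr
    simpa [mul_assoc] using this
  set x := FreeGroup.mk [S.letter d] with hx
  refine ⟨?_, ?_, ?_⟩
  · refine (h.pc.conj x⁻¹).cast rfl ?_ rfl
    rw [W_cons, W_append, W_cons, W_nil]
    try simp only [← hx]
    group
  · intro A t C hE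
    rcases split1 hE with ⟨C0, h1, h2⟩ | ⟨A0, h1, h2⟩
    · obtain ⟨m, hm, hP⟩ := h.s1 (d :: A) t C0 (by rw [h1]; rfl)
      refine ⟨m, hm, (hP.conj x⁻¹).cast rfl ?_ ?_⟩
      · rw [W_cons, h2, W_append, W_cons, W_nil]
        try simp only [← hx]
        group
      · rw [act_sub, W_cons, ← act_mul, ← hx, ← mul_assoc, inv_mul_cancel, one_mul]
    · have h3 : A0 = [] ∧ t = d ∧ C = [] := by
        cases A0 with
        | nil => simpa [eq_comm] using h2
        | cons a A0 => simp at h2
      obtain ⟨rfl, rfl, rfl⟩ := h3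
      obtain ⟨m, hm, hP⟩ := h.s1 [] t ds rfl
      refine ⟨m, hm, (hP.conj (S.rho t)).cast rfl ?_ ?_⟩
      · rw [h1, W_nil, W_append, W_nil]
        try simp only [← hx]
        group
      · rw [W_nil, act_one, act_sub, h1, List.append_nil]
        congr 1
        · apply act_congr
          rw [pr_rho', map_inv]
        · apply act_congr
          rw [pr_rho', hpr']
  · intro A t B u C hE hs
    rcases split1 hE with ⟨C0, h1, h2⟩ | ⟨A0, h1, h2⟩
    · rcases split1 (P := C0) (Q := [d]) (A := B) (t := u) (C := C) h2.symm with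
        ⟨C1, h3, h4⟩ | ⟨A1, h3, h4⟩
      · obtain ⟨m, hm, hP⟩ := h.s2 (d :: A) t B u C1 (by rw [h1, h3]; rfl) hs
        refine ⟨m, hm, (hP.conj x⁻¹).cast rfl ?_ ?_⟩
        · rw [W_cons, h4, W_append, W_cons, W_nil]
          try simp only [← hx]
          group
        · rw [act_sub, act_sub, W_cons, List.cons_append, W_cons, ← hx, ← act_mul, ← act_mul,
            ← mul_assoc, ← mul_assoc, inv_mul_cancel, one_mul, one_mul]
      · have h5 : A1 = [] ∧ u = d ∧ C = [] := by
          cases A1 with
          | nil => simpa [eq_comm] using h4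
          | cons a A1 => simp at h4
        obtain ⟨rfl, rfl, rfl⟩ := h5
        obtain ⟨m, hm, hP⟩ := h.s2 [] u A t C0 (by rw [h1]; rfl) (Ne.symm hs)
        refine ⟨m, hm, (hP.conj (S.rho u)).cast rfl ?_ ?_⟩
        · rw [W_nil, h3, W_append, W_nil]
          try simp only [← hx]
          group
        · have e1 : act rel (S.rho u) c = act rel x⁻¹ c := by
            apply act_congr; rw [pr_rho', map_inv]
          have e2 : act rel (S.rho u) (S.kap u) = act rel (S.W (A ++ t :: B)) (S.kap u) := by
            apply act_congr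
            rw [pr_rho', ← hpr', h1, h3, List.append_nil]
          have e3 : act rel (S.rho u) (act rel (S.W ([] ++ u :: A)) (S.kap t))
              = act rel (S.W A) (S.kap t) := by
            rw [← act_mul]
            apply act_congr
            rw [List.nil_append, W_cons, map_mul, map_mul, pr_rho']
            group
          rw [act_sub, act_sub, e1, W_nil, act_one, e2, e3]
          abel
    · exfalso
      cases A0 with
      | nil => simp at h2
      | cons a A0 => simp at h2

/-- merging two blocks along an edge -/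
theorem Alg.merge {P Q : List S.D} {d e : S.D} {n m : ℕ} {c c' : Cls rel}
    (h : S.Alg (P ++ [d]) n c) (h' : S.Alg (e :: Q) m c') (hde : S.letter e = linv (S.letter d)) :
    S.Alg (P ++ Q) (n + m) (c + c') := by
  set x := FreeGroup.mk [S.letter d] with hx
  have he : FreeGroup.mk [S.letter e] = x⁻¹ := by rw [hde, mk_linv]
  have hpr := h.pr_eq
  have hPx : S.W (P ++ [d]) = S.W P * x := by rw [W_append, W_cons, W_nil, mul_one]
  have hQx : S.W (e :: Q) = x⁻¹ * S.W Q := by rw [W_cons, he]
  rw [hPx, map_mul] at hpr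
  have hpr' : pr rel (S.W P) = pr rel x⁻¹ := by
    rw [map_inv]; exact eq_inv_of_mul_eq_one_left hpr
  refine ⟨?_, ?_, ?_⟩
  · refine (h.pc.mul h'.pc).cast rfl ?_ rfl
    rw [hPx, hQx, W_append]
    try simp only [← hx]
    group
  · intro A t C hE
    rcases split1 hE with ⟨C0, h1, h2⟩ | ⟨A0, h1, h2⟩
    · obtain ⟨k, hk, hP⟩ := h.s1 A t (C0 ++ [d]) (by rw [h1]; simp)
      refine ⟨k + m, by omega, (hP.mul h'.pc).cast rfl ?_ ?_⟩
      · rw [h2, W_append, W_append, W_cons, W_nil, hQx]
        try simp only [← hx]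
        group
      · abel
    · obtain ⟨k, hk, hP⟩ := h'.s1 (e :: A0) t C (by rw [h2]; rfl)
      refine ⟨n + k, by omega, (h.pc.mul hP).cast rfl ?_ ?_⟩
      · rw [h1, W_append, W_append, W_cons, W_cons, W_nil, he]
        try simp only [← hx]
        group
      · have : act rel (S.W (e :: A0)) (S.kap t) = act rel (S.W A) (S.kap t) := by
          apply act_congr
          rw [h1, W_cons, he, W_append, map_mul, map_mul, hpr']
        rw [this]; abel
  · intro A t B u C hE hs
    rcases split1 hE with ⟨C0, h1, h2⟩ | ⟨A0, h1, h2⟩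
    · rcases split1 (P := C0) (Q := Q) (A := B) (t := u) (C := C) h2.symm with
        ⟨C1, h3, h4⟩ | ⟨A1, h3, h4⟩
      · obtain ⟨k, hk, hP⟩ := h.s2 A t B u (C1 ++ [d]) (by rw [h1, h3]; simp) hs
        refine ⟨k + m, by omega, (hP.mul h'.pc).cast rfl ?_ ?_⟩
        · rw [h4, W_append, W_append, W_cons, W_nil, hQx]
          try simp only [← hx]
          group
        · abel
      · obtain ⟨k1, hk1, hP1⟩ := h.s1 A t (C0 ++ [d]) (by rw [h1]; simp)
        obtain ⟨k2, hk2, hP2⟩ := h'.s1 (e :: A1) u C (by rw [h4]; rfl)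
        refine ⟨k1 + k2, by omega, (hP1.mul hP2).cast rfl ?_ ?_⟩
        · rw [h3, W_append, W_append, W_cons, W_cons, W_nil, he]
          try simp only [← hx]
          group
        · have : act rel (S.W (e :: A1)) (S.kap u) = act rel (S.W (A ++ t :: B)) (S.kap u) := by
            apply act_congr
            rw [h3, ← List.cons_append, ← List.append_assoc, ← h1, W_cons, he, W_append,
              map_mul, map_mul, hpr']
          rw [this]; abel
    · obtain ⟨k, hk, hP⟩ := h'.s2 (e :: A0) t B u C (by rw [h2]; rfl) hs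
      refine ⟨n + k, by omega, (h.pc.mul hP).cast rfl ?_ ?_⟩
      · rw [h1, W_append, W_append, W_cons, W_cons, W_nil, he]
        try simp only [← hx]
        group
      · have e1 : act rel (S.W (e :: A0)) (S.kap t) = act rel (S.W A) (S.kap t) := by
          apply act_congr
          rw [h1, W_cons, he, W_append, map_mul, map_mul, hpr']
        have e2 : act rel (S.W (e :: A0 ++ t :: B)) (S.kap u)
            = act rel (S.W (A ++ t :: B)) (S.kap u) := by
          apply act_congr
          rw [h1, List.cons_append, W_cons, he, List.append_assoc, W_append S P, map_mul, map_mul,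
            hpr']
        rw [e1, e2]; abel

/-- merging two blocks along an edge between mirror images: two tiles can be removed -/
theorem Alg.merge_mir {P Q : List S.D} {d : S.D} {n m : ℕ} {c c' : Cls rel}
    (h : S.Alg (P ++ [d]) n c) (h' : S.Alg (S.mir d :: Q) m c') :
    ∃ k, k < n + m ∧ PC rel k (S.W P * S.W Q) (c + c') := by
  obtain ⟨k1, hk1, hP1⟩ := h.s1 P d [] rfl
  obtain ⟨k2, hk2, hP2⟩ := h'.s1 [] (S.mir d) Q rfl
  refine ⟨k1 + k2, by omega, (hP1.mul hP2).cast rfl ?_ ?_⟩
  · rw [W_nil, S.rho_mir]; group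
  · have hpr := h.pr_eq
    rw [W_append, W_cons, W_nil, mul_one, map_mul] at hpr
    have hpr' : pr rel (S.W P) = pr rel (FreeGroup.mk [S.letter d])⁻¹ := by
      rw [map_inv]; exact eq_inv_of_mul_eq_one_left hpr
    rw [W_nil, act_one, S.kap_mir, act_congr rel hpr']
    abel

/-- folding -/
theorem Alg.fold {P C : List S.D} {d e : S.D} {n : ℕ} {c : Cls rel}
    (h : S.Alg (P ++ d :: e :: C) n c) (hde : S.letter e = linv (S.letter d)) :
    S.Alg (P ++ C) n c := by
  set x := FreeGroup.mk [S.letter d] with hx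
  have he : FreeGroup.mk [S.letter e] = x⁻¹ := by rw [hde, mk_linv]
  have key : ∀ A B : List S.D, S.W (A ++ d :: e :: B) = S.W (A ++ B) := by
    intro A B
    rw [W_append, W_cons, W_cons, he, W_append, ← hx]; group
  have key0 : ∀ B : List S.D, S.W (d :: e :: B) = S.W B := by
    intro B
    have := key [] B
    simpa using this
  refine ⟨?_, ?_, ?_⟩
  · exact h.pc.cast rfl (key _ _) rfl
  · intro A t C' hE
    rcases split1 hE with ⟨C0, h1, h2⟩ | ⟨A0, h1, h2⟩
    · obtain ⟨k, hk, hP⟩ := h.s1 A t (C0 ++ d :: e :: C) (by rw [h1]; simp)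
      refine ⟨k, hk, hP.cast rfl ?_ rfl⟩
      rw [key, h2]
    · obtain ⟨k, hk, hP⟩ := h.s1 (P ++ d :: e :: A0) t C' (by rw [h2]; simp)
      refine ⟨k, hk, hP.cast rfl ?_ ?_⟩
      · rw [key, h1]
      · rw [key, h1]
  · intro A t B u C' hE hs
    rcases split1 hE with ⟨C0, h1, h2⟩ | ⟨A0, h1, h2⟩
    · rcases split1 (P := C0) (Q := C) (A := B) (t := u) (C := C') h2.symm with
        ⟨C1, h3, h4⟩ | ⟨A1, h3, h4⟩
      · obtain ⟨k, hk, hP⟩ := h.s2 A t B u (C1 ++ d :: e :: C) (by rw [h1, h3]; simp) hs
        refine ⟨k, hk, hP.cast rfl ?_ rfl⟩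
        rw [key, h4]
      · obtain ⟨k, hk, hP⟩ := h.s2 A t (C0 ++ d :: e :: A1) u C' (by rw [h1, h4]; simp) hs
        refine ⟨k, hk, hP.cast rfl ?_ ?_⟩
        · rw [key, h3]
        · have : A ++ t :: (C0 ++ d :: e :: A1) = (A ++ t :: C0) ++ d :: e :: A1 := by simp
          rw [this, key, h3]
          simp
    · obtain ⟨k, hk, hP⟩ := h.s2 (P ++ d :: e :: A0) t B u C' (by rw [h2]; simp) hs
      refine ⟨k, hk, hP.cast rfl ?_ ?_⟩
      · rw [key, h1]
      · have : P ++ d :: e :: A0 ++ t :: B = P ++ d :: e :: (A0 ++ t :: B) := by simp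
        rw [this, key, key, h1]
        simp

/-- folding between mirror images: two tiles can be removed -/
theorem Alg.fold_mir {P C : List S.D} {d : S.D} {n : ℕ} {c : Cls rel}
    (h : S.Alg (P ++ d :: S.mir d :: C) n c) :
    ∃ k, k < n ∧ PC rel k (S.W P * S.W C) c := by
  obtain ⟨k, hk, hP⟩ := h.s2 P d [] (S.mir d) C rfl (by rw [S.sg_mir]; cases S.sg d <;> simp)
  refine ⟨k, by omega, hP.cast rfl ?_ ?_⟩
  · rw [W_nil, S.rho_mir]; group
  · rw [S.kap_mir, act_neg, W_append, W_cons, W_nil, mul_one, ← act_mul, mul_assoc,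
      mul_inv_cancel, mul_one]
    abel

end TileSys

end Pool.Agent.RandomLOT
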