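import Pool.Agent.RandomLOT.Geo

/-!
# Cactus words and the weight test
-/

set_option autoImplicit false

open scoped BigOperators

namespace Pool.Agent.RandomLOT

open Pool.Agent.FoxAsph

namespace TileSys

variable {X ι : Type} [DecidableEq ι] {rel : ι → Word X} (S : TileSys rel)

/-- Boundary words of tree-like arrangements of blocks: blocks are inserted one after the other. -/
inductive Cac : Word X → ℕ → Cls rel → Prop
  | nil : Cac [] 0 0
  | ins (A L B : Word X) {n m : ℕ} {c d : Cls rel} : Cac (A ++ B) n c → S.IsBlock L m d →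
      Cac (A ++ (L ++ B)) (n + m) (c + act rel (FreeGroup.mk A) d)

variable {S}

theorem Cac.cast {w w' : Word X} {n n' : ℕ} {c c' : Cls rel} (h : S.Cac w n c) (e1 : w = w')
    (e2 : n = n') (e3 : c = c') : S.Cac w' n' c' := by
  subst e1 e2 e3; exact h

theorem pc_ins {A L B : Word X} {n m : ℕ} {c d : Cls rel} (h : PC rel n (FreeGroup.mk (A ++ B)) c)
    (hL : PC rel m (FreeGroup.mk L) d) :
    PC rel (n + m) (FreeGroup.mk (A ++ (L ++ B))) (c + act rel (FreeGroup.mk A) d) := by
  refine ((hL.conj (FreeGroup.mk A)).mul h).cast (add_comm _ _) ?_ (add_comm _ _)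
  rw [mk_append, mk_append, mk_append]; group

theorem Cac.pc {w : Word X} {n : ℕ} {c : Cls rel} (h : S.Cac w n c) :
    PC rel n (FreeGroup.mk w) c := by
  induction h with
  | nil => exact PC.one
  | ins A L B _ hL ih => exact pc_ins ih hL.pc

/-- `Cac` up to products of fewer conjugates -/
def Red (S : TileSys rel) (w : Word X) (n : ℕ) (c : Cls rel) : Prop :=
  S.Cac w n c ∨ ∃ k, k < n ∧ PC rel k (FreeGroup.mk w) c

theorem Red.cast {w w' : Word X} {n n' : ℕ} {c c' : Cls rel} (h : S.Red w n c) (e1 : w = w')
    (e2 : n = n') (e3 : c = c') : S.Red w' n' c' := by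
  subst e1 e2 e3; exact h

theorem Red.ins {A L B : Word X} {n m : ℕ} {c d : Cls rel} (h : S.Red (A ++ B) n c)
    (hL : S.IsBlock L m d ∨ ∃ k, k < m ∧ PC rel k (FreeGroup.mk L) d) :
    S.Red (A ++ (L ++ B)) (n + m) (c + act rel (FreeGroup.mk A) d) := by
  rcases h with h | ⟨k, hk, h⟩
  · rcases hL with hL | ⟨k', hk', hL⟩
    · left; exact Cac.ins A L B h hL
    · right; exact ⟨n + k', by omega, pc_ins h.pc hL⟩
  · rcases hL with hL | ⟨k', hk', hL⟩
    · right; exact ⟨k + m, by omega, pc_ins h hL.pc⟩
    · right; exact ⟨k + k', by omega, pc_ins h hL⟩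

theorem IsBlock.pr_eq {L : Word X} {n : ℕ} {c : Cls rel} (h : S.IsBlock L n c) :
    pr rel (FreeGroup.mk L) = 1 := h.pc.pr_eq

theorem IsBlock.cast {w w' : Word X} {n n' : ℕ} {c c' : Cls rel} (h : S.IsBlock w n c)
    (e1 : w = w') (e2 : n = n') (e3 : c = c') : S.IsBlock w' n' c' := by
  subst e1 e2 e3; exact h

/-- attach a block along an edge of a cactus -/
theorem Cac.attach {w : Word X} {n : ℕ} {c : Cls rel} (h : S.Cac w n c) :
    ∀ (A : Word X) (l : X × Bool) (B Q : Word X) (m : ℕ) (d : Cls rel), w = A ++ l :: B →
      S.IsBlock (linv l :: Q) m d →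
      S.Red (A ++ (Q ++ B)) (n + m) (c + act rel (FreeGroup.mk (A ++ [l])) d) := by
  induction h with
  | nil =>
    intro A l B Q m d hw
    simp at hw
  | @ins A' L B' n m' c d' hC hL ih =>
    intro A l B Q m d hw hQ
    have hprL := hL.pr_eq
    have hprQ : pr rel (FreeGroup.mk Q) = pr rel (FreeGroup.mk [l]) := by
      have := hQ.pr_eq
      rw [mk_cons, mk_linv, map_mul, map_inv, inv_mul_eq_one] at this
      exact this.symm
    rcases split1 hw with ⟨C0, h1, h2⟩ | ⟨A0, h1, h2⟩
    · -- the letter is before the inserted block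
      have h3 := ih A l (C0 ++ B') Q m d (by rw [h1]; simp) hQ
      have h4 := Red.ins (A := A ++ (Q ++ C0)) (B := B') (L := L)
        (h3.cast (by simp) rfl rfl) (Or.inl hL)
      refine h4.cast ?_ (by omega) ?_
      · rw [h2]; simp
      · have : act rel (FreeGroup.mk (A ++ (Q ++ C0))) d' = act rel (FreeGroup.mk A') d' := by
          apply act_congr
          rw [h1, mk_append, mk_append, mk_append, mk_cons l C0, map_mul, map_mul, map_mul,
            map_mul, hprQ]
        rw [this]; abel
    · rcases split1 h2 with ⟨C0, h3, h4⟩ | ⟨A1, h3, h4⟩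
      · -- the letter is in the inserted block
        have e1 : L = (A0 ++ [l]) ++ C0 := by rw [h3]; simp
        have hL1 := (hL.cast e1 rfl rfl).rotAppend
        have hL2 : S.IsBlock ((C0 ++ A0) ++ [l]) m'
            (act rel (FreeGroup.mk (A0 ++ [l]))⁻¹ d') := hL1.cast (by simp) rfl rfl
        have hM := hL2.merge hQ
        have hprL' : pr rel (FreeGroup.mk (A0 ++ [l])) * pr rel (FreeGroup.mk C0) = 1 := by
          rw [← map_mul, ← mk_append, ← e1]; exact hprL
        have hC0 : pr rel (FreeGroup.mk C0)⁻¹ = pr rel (FreeGroup.mk (A0 ++ [l])) := by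
          rw [map_inv]; exact (eq_inv_of_mul_eq_one_left hprL').symm
        have hcls : act rel (FreeGroup.mk C0)⁻¹
            (act rel (FreeGroup.mk (A0 ++ [l]))⁻¹ d' + d)
            = d' + act rel (FreeGroup.mk (A0 ++ [l])) d := by
          rw [act_add, ← act_mul, act_of_pr, act_congr rel hC0]
          rw [map_mul, hC0, map_inv, mul_inv_cancel]
        have hfin : c + act rel (FreeGroup.mk A') (d' + act rel (FreeGroup.mk (A0 ++ [l])) d)
            = c + act rel (FreeGroup.mk A') d' + act rel (FreeGroup.mk (A ++ [l])) d := by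
          have : act rel (FreeGroup.mk A') (act rel (FreeGroup.mk (A0 ++ [l])) d)
              = act rel (FreeGroup.mk (A ++ [l])) d := by
            rw [← act_mul, ← mk_append, h1, List.append_assoc]
          rw [act_add, this]; abel
        have hblk : S.IsBlock (A0 ++ (Q ++ C0)) (m' + m)
            (d' + act rel (FreeGroup.mk (A0 ++ [l])) d) ∨
            ∃ k, k < m' + m ∧ PC rel k (FreeGroup.mk (A0 ++ (Q ++ C0)))
              (d' + act rel (FreeGroup.mk (A0 ++ [l])) d) := by
          rcases hM with hM | ⟨k, hk, hM⟩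
          · left
            have hM1 : S.IsBlock (C0 ++ (A0 ++ Q)) (m' + m)
                (act rel (FreeGroup.mk (A0 ++ [l]))⁻¹ d' + d) := hM.cast (by simp) rfl rfl
            exact hM1.rotAppend.cast (by simp) rfl hcls
          · right
            refine ⟨k, hk, (hM.conj (FreeGroup.mk C0)⁻¹).cast rfl ?_ hcls⟩
            rw [mk_append, mk_append, mk_append, mk_append]; group
        have h5 := Red.ins (A := A') (B := B') (L := A0 ++ (Q ++ C0)) (Or.inl hC) hblk
        refine h5.cast ?_ (by omega) hfin
        rw [h1, h4]; simp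
      · -- the letter is behind the inserted block
        have h5 := ih (A' ++ A1) l B Q m d (by rw [h4]; simp) hQ
        have h6 := Red.ins (A := A') (B := A1 ++ (Q ++ B)) (L := L)
          (h5.cast (by simp) rfl rfl) (Or.inl hL)
        refine h6.cast ?_ (by omega) ?_
        · rw [h1, h3]; simp
        · have : act rel (FreeGroup.mk (A' ++ A1 ++ [l])) d = act rel (FreeGroup.mk (A ++ [l])) d := by
            apply act_congr
            rw [h1, h3, mk_append, mk_append, mk_append, mk_append, mk_append, map_mul, map_mul,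
              map_mul, map_mul, map_mul, hprL, one_mul]
          rw [this]; abel

/-- cancel two adjacent inverse letters of a cactus -/
theorem Cac.step (hS : S.Flat) {w : Word X} {n : ℕ} {c : Cls rel} (h : S.Cac w n c) :
    ∀ (A : Word X) (l : X × Bool) (B : Word X), w = A ++ l :: linv l :: B →
      S.Red (A ++ B) n c := by
  induction h with
  | nil =>
    intro A l B hw
    simp at hw
  | @ins A' L B' n m c d hC hL ih =>
    intro A l B hw
    have hprL := hL.pr_eq
    have hll : ∀ Y : Word X, (FreeGroup.mk (l :: linv l :: Y)) = FreeGroup.mk Y := by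
      intro Y
      rw [mk_cons, mk_cons (linv l), mk_linv]; group
    rcases split1 hw with ⟨C0, h1, h2⟩ | ⟨A0, h1, h2⟩
    · cases C0 with
      | nil =>
        -- `l` is the last letter before the block
        cases L with
        | nil => exact absurd hL (fun h => h.ne_nil)
        | cons y Q =>
          rw [List.nil_append, List.cons_append, List.cons.injEq] at h2
          obtain ⟨rfl, rfl⟩ := h2
          have h3 := hC.attach A l B' Q m d (by rw [h1]; simp) hL
          exact h3.cast rfl rfl (by rw [h1])
      | cons y C1 =>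
        rw [List.cons_append, List.cons.injEq] at h2
        obtain ⟨rfl, rfl⟩ := h2
        have h3 := ih A l (C1 ++ B') (by rw [h1]; simp)
        have h4 := Red.ins (A := A ++ C1) (B := B') (L := L) (h3.cast (by simp) rfl rfl)
          (Or.inl hL)
        refine h4.cast (by simp) rfl ?_
        rw [h1, mk_append, mk_append, hll]
    · rcases split1 h2 with ⟨C0, h3, h4⟩ | ⟨A1, h3, h4⟩
      · cases C0 with
        | nil =>
          -- `l` is the last letter of the block
          rw [List.nil_append] at h4
          have hL1 := (hL.cast h3 rfl rfl).rotAppend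
          have hL2 : S.IsBlock (linv (linv l) :: A0) m (act rel (FreeGroup.mk A0)⁻¹ d) :=
            hL1.cast (by simp) rfl rfl
          have h5 := hC.attach A' (linv l) B A0 m _ (by rw [← h4]) hL2
          refine h5.cast ?_ rfl ?_
          · rw [h1]; simp
          · congr 1
            rw [← act_mul]
            apply act_congr
            have hpr : pr rel (FreeGroup.mk A0) * pr rel (FreeGroup.mk [l]) = 1 := by
              rw [← map_mul, ← mk_append, ← h3]; exact hprL
            rw [mk_append, mk_linv, mul_assoc, ← mul_inv_rev, map_mul, map_inv, map_mul, hpr,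
              inv_one, mul_one]
        | cons y C1 =>
          -- both letters in the block
          rw [List.cons_append, List.cons.injEq] at h4
          obtain ⟨rfl, rfl⟩ := h4
          have e1 : L = (A0 ++ [l, linv l]) ++ C1 := by rw [h3]; simp
          have hL1 := (hL.cast e1 rfl rfl).rotAppend
          have hL2 : S.IsBlock ((C1 ++ A0) ++ [l, linv l]) m
            (act rel (FreeGroup.mk (A0 ++ [l, linv l]))⁻¹ d) := hL1.cast (by simp) rfl rfl
          have hprL' : pr rel (FreeGroup.mk (A0 ++ [l, linv l])) * pr rel (FreeGroup.mk C1) = 1 := by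
            rw [← map_mul, ← mk_append, ← e1]; exact hprL
          have hC1 : pr rel (FreeGroup.mk C1)⁻¹ = pr rel (FreeGroup.mk (A0 ++ [l, linv l])) := by
            rw [map_inv]; exact (eq_inv_of_mul_eq_one_left hprL').symm
          have hcls : act rel (FreeGroup.mk C1)⁻¹
              (act rel (FreeGroup.mk (A0 ++ [l, linv l]))⁻¹ d) = d := by
            rw [← act_mul, act_of_pr]
            rw [map_mul, hC1, map_inv, mul_inv_cancel]
          rcases hL2.fold hS with ⟨hnil, hm, hd⟩ | hF | ⟨k, hk, hF⟩
          · have hd0 : d = 0 := by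
              rw [← hcls, hd, act_zero]
            have hnil' := List.append_eq_nil_iff.1 hnil
            left
            refine hC.cast ?_ (by omega) ?_
            · rw [h1, hnil'.2, hnil'.1]; simp
            · rw [hd0, act_zero, add_zero]
          · have hF1 := hF.rotAppend.cast rfl rfl hcls
            have h5 := Red.ins (A := A') (B := B') (L := A0 ++ C1) (Or.inl hC) (Or.inl hF1)
            exact h5.cast (by rw [h1]; simp) rfl rfl
          · have hF1 : PC rel k (FreeGroup.mk (A0 ++ C1)) d := by
              refine (hF.conj (FreeGroup.mk C1)⁻¹).cast rfl ?_ hcls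
              rw [mk_append, mk_append]; group
            have h5 := Red.ins (A := A') (B := B') (L := A0 ++ C1) (Or.inl hC)
              (Or.inr ⟨k, hk, hF1⟩)
            exact h5.cast (by rw [h1]; simp) rfl rfl
      · have h5 := ih (A' ++ A1) l B (by rw [h4]; simp)
        have h6 := Red.ins (A := A') (B := A1 ++ B) (L := L) (h5.cast (by simp) rfl rfl)
          (Or.inl hL)
        refine h6.cast ?_ rfl rfl
        rw [h1, h3]; simp

theorem Cac.thin {A B : Word X} {n : ℕ} {c : Cls rel} (h : S.Cac (A ++ B) n c) (l : X × Bool) :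
    S.Cac (A ++ l :: linv l :: B) n c := by
  have hL : S.IsBlock [l, linv l] 0 0 := Or.inr ⟨rfl, rfl, l, rfl⟩
  refine (Cac.ins A [l, linv l] B h hL).cast (by simp) (by simp) ?_
  rw [act_zero, add_zero]

theorem Cac.tail {n : ℕ} {c : Cls rel} (w : Word X) : ∀ {A B : Word X}, S.Cac (A ++ B) n c →
    S.Cac (A ++ (w ++ (FreeGroup.invRev w ++ B))) n c := by
  induction w with
  | nil => intro A B h; simpa using h
  | cons l w ih =>
    intro A B h
    have h1 := h.thin l
    have h2 : S.Cac ((A ++ [l]) ++ (linv l :: B)) n c := h1.cast (by simp) rfl rfl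
    have h3 := ih h2
    refine h3.cast ?_ rfl rfl
    have : FreeGroup.invRev (l :: w) = FreeGroup.invRev w ++ [linv l] := by
      simp [FreeGroup.invRev, linv]
    rw [this]
    simp

/-- a tile is a block -/
theorem isBlock_tile (i : ι) (s : Bool) :
    ∃ L : Word X, FreeGroup.mk L = relE rel i s ∧ S.IsBlock L 1 (clsE rel i s) := by
  obtain ⟨ds, hne, hw, hcyc, hsg, hgb, hrho⟩ := S.tile i s
  refine ⟨ds.map S.letter, hw, Or.inl ⟨ds.map fun d => ⟨d, d, S.wt d⟩, ?_, ⟨?_, ?_, ?_⟩, ?_, ?_, ?_⟩⟩
  · rw [List.map_map]; rfl
  · intro t ht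
    rw [List.mem_map] at ht
    obtain ⟨d, _, rfl⟩ := ht
    exact fan_single d
  · rw [List.map_map, List.map_map]
    have e1 : ((fun t : S.Tok => S.next t.b) ∘ fun d => (⟨d, d, S.wt d⟩ : S.Tok)) = S.next := rfl
    have e2 : ((fun t : S.Tok => t.a) ∘ fun d => (⟨d, d, S.wt d⟩ : S.Tok)) = id := rfl
    rw [e1, e2, List.map_id, hcyc]
  · rw [List.map_map]
    exact hgb
  · have e : (List.map (fun t : S.Tok => t.a) (ds.map fun d => ⟨d, d, S.wt d⟩)) = ds := by
      rw [List.map_map]
      exact List.map_id ds
    rw [e]
    have := PC.single (rel := rel) 1 i s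
    rw [act_one] at this
    refine this.cast rfl ?_ rfl
    unfold W
    rw [hw]; group
  · have e : (List.map (fun t : S.Tok => t.a) (ds.map fun d => ⟨d, d, S.wt d⟩)) = ds := by
      rw [List.map_map]
      exact List.map_id ds
    rw [e]
    intro A t C hE
    obtain ⟨h1, h2⟩ := hrho A t C hE
    refine ⟨0, rfl, PC.one.cast rfl ?_ ?_⟩
    · unfold W; rw [h1]; group
    · unfold W; rw [h2, sub_self]
  · have e : (List.map (fun t : S.Tok => t.a) (ds.map fun d => ⟨d, d, S.wt d⟩)) = ds := by
      rw [List.map_map]
      exact List.map_id ds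
    rw [e]
    intro A t B u C hE hs
    exfalso
    apply hs
    rw [hsg t (by rw [hE]; simp), hsg u (by rw [hE]; simp)]

variable (S) in
theorem exists_cac {n : ℕ} {g : FreeGroup X} {c : Cls rel} (h : PC rel n g c) :
    ∃ w : Word X, FreeGroup.mk w = g ∧ S.Cac w n c := by
  induction h with
  | one => exact ⟨[], rfl, Cac.nil⟩
  | @cons s v i n g c _ ih =>
    obtain ⟨w, hw, hC⟩ := ih
    obtain ⟨L, hL, hB⟩ := isBlock_tile (S := S) i s
    obtain ⟨v', rfl⟩ : ∃ v' : Word X, FreeGroup.mk v' = v := Quot.exists_rep v
    have h1 : S.Cac (([] : Word X) ++ w) n c := hC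
    have h2 := h1.tail v'
    have h3 := Cac.ins v' L (FreeGroup.invRev v' ++ w) h2 hB
    refine ⟨_, ?_, h3.cast rfl rfl ?_⟩
    · rw [mk_append, mk_append, mk_append, hL, hw, ← FreeGroup.inv_mk]
      group
    · rw [add_comm]

theorem Cac.nil_eq {n : ℕ} {c : Cls rel} {w : Word X} (h : S.Cac w n c) (hw : w = []) : c = 0 := by
  cases h with
  | nil => rfl
  | ins A L B _ hL =>
    exfalso
    have h1 := List.append_eq_nil_iff.1 hw
    have h2 := List.append_eq_nil_iff.1 h1.2
    rw [h2.1] at hL
    exact hL.ne_nil

/-- **The weight test**: the class of every product of conjugates of relators that is trivial in the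
free group vanishes. -/
theorem weight_test (hS : S.Flat) (n : ℕ) : ∀ c : Cls rel, PC rel n 1 c → c = 0 := by
  induction n using Nat.strong_induction_on with
  | _ n ih =>
    intro c h
    obtain ⟨w, hw, hC⟩ := exists_cac S h
    have hred : FreeGroup.Red w [] := by
      rw [FreeGroup.one_eq_mk] at hw
      obtain ⟨u, h1, h2⟩ := FreeGroup.Red.exact.1 hw
      rw [FreeGroup.Red.nil_iff] at h2
      rw [h2] at h1
      exact h1
    clear h
    have key : ∀ w' : Word X, FreeGroup.Red w w' → S.Cac w' n c ∨ c = 0 := by
      intro w' hw'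
      induction hw' with
      | refl => left; exact hC
      | @tail u v hu hs ihs =>
        rcases ihs with h1 | h1
        · cases hs with
          | @not L₁ L₂ x b =>
            have h2 := h1.step hS L₁ (x, b) L₂ rfl
            rcases h2 with h2 | ⟨k, hk, h2⟩
            · left; exact h2
            · right
              have hone : FreeGroup.mk (L₁ ++ L₂) = (1 : FreeGroup X) := by
                rw [← hw]
                apply FreeGroup.Red.exact.2
                refine ⟨L₁ ++ L₂, Relation.ReflTransGen.refl, ?_⟩
                exact Relation.ReflTransGen.tail hu FreeGroup.Red.Step.not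
              rw [hone] at h2
              exact ih k hk c h2
        · right; exact h1
    rcases key [] hred with h1 | h1
    · exact h1.nil_eq rfl
    · exact h1

end TileSys

end Pool.Agent.RandomLOT
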