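import Mathlib
import Pool.Agent.FoxAsph.Defs

/-!
# Random labelled oriented trees: definitions shared by the files of this folder

* `PC rel n g c`: the element `g` of the free group is a product of `n` conjugates of relators and
  their inverses, and `c` is the class of this product in `ℤ[G]^ι`.
* `Half`, `base`, `Reduced`, `Sparse`: combinatorics of labelled oriented graphs.
* `Step`: the steps of a walk in the link graph of a labelled oriented graph.
-/

set_option autoImplicit false

open scoped BigOperators

namespace Pool.Agent.RandomLOT

open Pool.Agent.FoxAsph

section Products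

variable {X ι : Type} [DecidableEq ι] (rel : ι → Word X)

/-- The projection of the free group onto the presented group. -/
def pr : FreeGroup X →* Grp rel := PresentedGroup.mk _

/-- `ℤ[G]^ι` -/
abbrev Cls : Type := ι → MonoidAlgebra ℤ (Grp rel)

/-- the action of the free group on `ℤ[G]^ι` -/
noncomputable def act (g : FreeGroup X) (c : Cls rel) : Cls rel :=
  fun i => MonoidAlgebra.of ℤ (Grp rel) (pr rel g) * c i

/-- the relator `i` or its inverse -/
def relE (i : ι) (s : Bool) : FreeGroup X :=
  if s then FreeGroup.mk (rel i) else (FreeGroup.mk (rel i))⁻¹

/-- the basis vector `i` of `ℤ[G]^ι` or its opposite -/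
noncomputable def clsE (i : ι) (s : Bool) : Cls rel :=
  if s then Pi.single i 1 else - Pi.single i 1

/-- `PC rel n g c`: the element `g` is a product of `n` conjugates `w r_i^{±1} w⁻¹`, and `c` is the
sum of the terms `± [w] e_i`. -/
inductive PC : ℕ → FreeGroup X → Cls rel → Prop
  | one : PC 0 1 0
  | cons (s : Bool) (w : FreeGroup X) (i : ι) {n : ℕ} {g : FreeGroup X} {c : Cls rel} :
      PC n g c → PC (n + 1) (w * relE rel i s * w⁻¹ * g) (act rel w (clsE rel i s) + c)

end Products

section Graphs

variable {V E : Type}

/-- The base vertex of a half-edge `(e, s)`: the source of `e` if `s = true`, the target if not. -/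
def base (src tgt : E → V) (h : E × Bool) : V := if h.2 then src h.1 else tgt h.1

/-- A labelled oriented graph is reduced if the label of an edge is none of its ends, and edges with
equal labels have different sources and different targets. -/
def Reduced (src tgt lab : E → V) : Prop :=
  (∀ e, lab e ≠ src e ∧ lab e ≠ tgt e) ∧
    ∀ e e', e ≠ e' → lab e = lab e' → src e ≠ src e' ∧ tgt e ≠ tgt e'

/-- Every set of at most `T` half-edges has at least as many vertices (bases and labels) as
elements. -/
def Sparse [DecidableEq V] (T : ℕ) (src tgt lab : E → V) : Prop :=
  ∀ A : Finset (E × Bool), A.card ≤ T →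
    A.card ≤ (A.image (base src tgt) ∪ A.image (fun h => lab h.1)).card

/-- A step in the link graph: half-edge `h`, side `σ` of the base, and the direction `d`
(`true`: from `(base h, σ)` down to `(lab h, h.2)`; `false`: the way back up). -/
abbrev Step (E : Type) : Type := (E × Bool) × Bool × Bool

/-- where a step starts -/
def stepStart (src tgt lab : E → V) (x : Step E) : V × Bool :=
  if x.2.2 then (base src tgt x.1, x.2.1) else (lab x.1.1, x.1.2)

/-- the same step in the other direction -/
def stepRev (x : Step E) : Step E := (x.1, x.2.1, !x.2.2)

/-- where a step ends -/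
def stepEnd (src tgt lab : E → V) (x : Step E) : V × Bool :=
  stepStart src tgt lab (stepRev x)

/-- `y` can follow `x` in a reduced walk in the link graph -/
def Follows (src tgt lab : E → V) (x y : Step E) : Prop :=
  stepStart src tgt lab y = stepEnd src tgt lab x ∧ y ≠ stepRev x

/-- adjacency of vertices in an oriented graph -/
def Adj (src tgt : E → V) (u v : V) : Prop := ∃ e, (src e = u ∧ tgt e = v) ∨ (src e = v ∧ tgt e = u)

/-- degree of a vertex -/
def deg [Fintype E] [DecidableEq V] (src tgt : E → V) (v : V) : ℕ :=
  (Finset.univ.filter fun e => src e = v ∨ tgt e = v).card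

end Graphs

end Pool.Agent.RandomLOT
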