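import Mathlib
import Pool.Agent.RandomLOT.Defs

/-!
# Few labelings of a tree of bounded degree are not sparse
-/

set_option autoImplicit false
set_option linter.unusedSectionVars false

open scoped BigOperators

namespace Pool.Agent.RandomLOT

namespace Cnt

/-- A choice of a root: every edge has a parent end and a child end, different edges have different
children, and the children have larger depth. -/
structure Rooting {V E : Type} (src tgt : E → V) where
  /-- the parent end -/
  par : E → V
  /-- the child end -/
  ch : E → V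
  /-- the depth -/
  dep : V → ℕ
  ends : ∀ e, (par e = src e ∧ ch e = tgt e) ∨ (par e = tgt e ∧ ch e = src e)
  inj : Function.Injective ch
  lt : ∀ e, dep (par e) < dep (ch e)

theorem exists_rooting {V E : Type} [Fintype V] [Fintype E] (src tgt : E → V)
    (hcard : Fintype.card V = Fintype.card E + 1)
    (hconn : ∀ u v, Relation.ReflTransGen (Adj src tgt) u v) : Nonempty (Rooting src tgt) := by
  classical
  have hpos : 0 < Fintype.card V := by omega
  obtain ⟨r⟩ : Nonempty V := Fintype.card_pos_iff.mp hpos
  -- the simple graph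
  let G : SimpleGraph V :=
    { Adj := fun u v => u ≠ v ∧ Adj src tgt u v
      symm := by
        refine ⟨?_⟩
        rintro u v ⟨h1, e, h2⟩
        exact ⟨h1.symm, e, h2.symm⟩
      loopless := ⟨fun u h => h.1 rfl⟩ }
  have hreach : ∀ v, G.Reachable r v := by
    intro v
    have h := hconn r v
    induction h with
    | refl => exact SimpleGraph.Reachable.refl _
    | @tail b c _ hbc ih =>
      by_cases h : b = c
      · rw [← h]; exact ih
      · exact ih.trans (SimpleGraph.Adj.reachable ⟨h, hbc⟩)
  -- every vertex other than the root has an edge to a vertex of smaller depth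
  have hstep : ∀ v : V, v ≠ r → ∃ e : E, ∃ w : V, G.dist r w < G.dist r v ∧
      ((w = src e ∧ v = tgt e) ∨ (w = tgt e ∧ v = src e)) := by
    intro v hv
    obtain ⟨p, hp⟩ := (hreach v).exists_walk_length_eq_dist
    obtain ⟨q, hq⟩ : ∃ q : G.Walk v r, q.length = G.dist r v :=
      ⟨p.reverse, by rw [SimpleGraph.Walk.length_reverse, hp]⟩
    cases q with
    | nil => exact absurd rfl hv
    | @cons _ w _ hadj q' =>
      obtain ⟨hne, e, he⟩ := hadj
      refine ⟨e, w, ?_, ?_⟩
      · have h1 : G.dist r w ≤ q'.reverse.length := SimpleGraph.dist_le _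
        rw [SimpleGraph.Walk.length_reverse] at h1
        rw [SimpleGraph.Walk.length_cons] at hq
        omega
      · rcases he with he | he
        · exact Or.inr ⟨he.2.symm, he.1.symm⟩
        · exact Or.inl ⟨he.1.symm, he.2.symm⟩
  choose pe pw hpw hpe using hstep
  have hpinj : Function.Injective (fun v : {v : V // v ≠ r} => pe v.1 v.2) := by
    rintro ⟨v, hv⟩ ⟨v', hv'⟩ h
    simp only at h
    have h1 := hpe v hv
    have h2 := hpe v' hv'
    have h3 := hpw v hv
    have h4 := hpw v' hv'
    rw [← h] at h2
    apply Subtype.ext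
    show v = v'
    rcases h1 with ⟨a1, b1⟩ | ⟨a1, b1⟩ <;> rcases h2 with ⟨a2, b2⟩ | ⟨a2, b2⟩
    · rw [b1, b2]
    · exfalso
      rw [a1, ← b2] at h3
      rw [a2, ← b1] at h4
      omega
    · exfalso
      rw [a1, ← b2] at h3
      rw [a2, ← b1] at h4
      omega
    · rw [b1, b2]
  have hcard' : Fintype.card {v : V // v ≠ r} = Fintype.card E := by
    rw [Fintype.card_subtype_compl, Fintype.card_subtype_eq]
    omega
  have hbij : Function.Bijective (fun v : {v : V // v ≠ r} => pe v.1 v.2) :=
    (Fintype.bijective_iff_injective_and_card _).mpr ⟨hpinj, hcard'⟩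
  let φ : {v : V // v ≠ r} ≃ E := Equiv.ofBijective _ hbij
  have hφ : ∀ e, pe (φ.symm e).1 (φ.symm e).2 = e := fun e => φ.apply_symm_apply e
  refine ⟨{ par := fun e => pw (φ.symm e).1 (φ.symm e).2
            ch := fun e => (φ.symm e).1
            dep := fun v => G.dist r v
            ends := ?_
            inj := ?_
            lt := ?_ }⟩
  · intro e
    have := hpe (φ.symm e).1 (φ.symm e).2
    rw [hφ e] at this
    exact this
  · intro e e' h
    exact φ.symm.injective (Subtype.ext h)
  · intro e
    exact hpw _ (φ.symm e).2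

section Agree

variable {V E : Type} [Fintype V] [DecidableEq V] [Fintype E] [DecidableEq E]

open Classical in
/-- the reduced labelings -/
noncomputable def red (src tgt : E → V) : Finset (E → V) :=
  Finset.univ.filter (fun lab => Reduced src tgt lab)

open Classical in
/-- the reduced labelings with prescribed values on `A` -/
noncomputable def agree (src tgt : E → V) (A : Finset E) (μ : E → V) : Finset (E → V) :=
  Finset.univ.filter (fun lab => Reduced src tgt lab ∧ ∀ e ∈ A, lab e = μ e)

theorem mem_agree {src tgt : E → V} {A : Finset E} {μ lab : E → V} :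
    lab ∈ agree src tgt A μ ↔ Reduced src tgt lab ∧ ∀ e ∈ A, lab e = μ e := by
  classical
  unfold agree
  simp

theorem mem_red {src tgt : E → V} {lab : E → V} :
    lab ∈ red src tgt ↔ Reduced src tgt lab := by
  classical
  unfold red
  simp

/-- the forbidden labels of the edge `e` -/
def forb (src tgt : E → V) (lab : E → V) (e : E) : Finset V :=
  ({src e, tgt e} : Finset V) ∪
    (((Finset.univ.filter fun e' => src e' = src e ∨ tgt e' = src e).erase e).image lab ∪
      ((Finset.univ.filter fun e' => src e' = tgt e ∨ tgt e' = tgt e).erase e).image lab)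

theorem card_forb_le (src tgt : E → V) (Δ : ℕ) (hdeg : ∀ v, deg src tgt v ≤ Δ)
    (lab : E → V) (e : E) : (forb src tgt lab e).card ≤ 2 * Δ := by
  have h1 : ((Finset.univ.filter fun e' => src e' = src e ∨ tgt e' = src e).erase e).card + 1
      ≤ Δ := by
    rw [Finset.card_erase_add_one (by simp)]
    exact hdeg (src e)
  have h2 : ((Finset.univ.filter fun e' => src e' = tgt e ∨ tgt e' = tgt e).erase e).card + 1
      ≤ Δ := by
    rw [Finset.card_erase_add_one (by simp)]
    exact hdeg (tgt e)
  unfold forb
  refine (Finset.card_union_le _ _).trans ?_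
  refine (Nat.add_le_add Finset.card_le_two ((Finset.card_union_le _ _).trans
    (Nat.add_le_add Finset.card_image_le Finset.card_image_le))).trans ?_
  omega

theorem reduced_update (src tgt : E → V) (lab : E → V) (hred : Reduced src tgt lab) (e : E)
    (v : V) (hv : v ∉ forb src tgt lab e) : Reduced src tgt (Function.update lab e v) := by
  unfold forb at hv
  simp only [Finset.mem_union, Finset.mem_insert, Finset.mem_singleton, Finset.mem_image,
    Finset.mem_erase, Finset.mem_filter, Finset.mem_univ, true_and, not_or, not_exists,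
    not_and] at hv
  obtain ⟨⟨hv1, hv2⟩, hv3, hv4⟩ := hv
  have key : ∀ e', e' ≠ e → lab e' = v → src e ≠ src e' ∧ tgt e ≠ tgt e' := by
    intro e' hne hl
    constructor
    · intro h
      exact hv3 e' ⟨hne, Or.inl h.symm⟩ hl
    · intro h
      exact hv4 e' ⟨hne, Or.inr h.symm⟩ hl
  constructor
  · intro e1
    by_cases h : e1 = e
    · subst h
      rw [Function.update_self]
      exact ⟨hv1, hv2⟩
    · rw [Function.update_of_ne h]
      exact hred.1 e1
  · intro e1 e2 hne hl
    by_cases h1 : e1 = e
    · subst h1
      have h2 : e2 ≠ e1 := fun h => hne h.symm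
      rw [Function.update_self, Function.update_of_ne h2] at hl
      exact key e2 h2 hl.symm
    · by_cases h2 : e2 = e
      · subst h2
        rw [Function.update_self, Function.update_of_ne h1] at hl
        have := key e1 h1 hl
        exact ⟨this.1.symm, this.2.symm⟩
      · rw [Function.update_of_ne h1, Function.update_of_ne h2] at hl
        exact hred.2 e1 e2 hne hl

theorem card_agree_insert (src tgt : E → V) (Δ : ℕ) (hdeg : ∀ v, deg src tgt v ≤ Δ)
    (A : Finset E) (e : E) (he : e ∉ A) (μ : E → V) :
    (agree src tgt (insert e A) μ).card * (Fintype.card V - 2 * Δ) ≤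
      (agree src tgt A μ).card := by
  have h1 : (agree src tgt (insert e A) μ).card * (Fintype.card V - 2 * Δ) ≤
      ((agree src tgt (insert e A) μ).sigma (fun lab => (forb src tgt lab e)ᶜ)).card := by
    rw [Finset.card_sigma, ← smul_eq_mul]
    refine Finset.card_nsmul_le_sum _ _ _ ?_
    intro lab _
    rw [Finset.card_compl]
    have := card_forb_le src tgt Δ hdeg lab e
    omega
  refine h1.trans ?_
  refine Finset.card_le_card_of_injOn (fun p => Function.update p.1 e p.2) ?_ ?_
  · rintro ⟨lab, v⟩ hp
    simp only [Finset.coe_sigma, Set.mem_sigma_iff, Finset.mem_coe, Finset.mem_compl] at hp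
    obtain ⟨hp1, hp2⟩ := hp
    rw [mem_agree] at hp1
    rw [Finset.mem_coe, mem_agree]
    refine ⟨reduced_update src tgt lab hp1.1 e v hp2, ?_⟩
    intro e' he'
    have hne : e' ≠ e := fun h => he (h ▸ he')
    show Function.update lab e v e' = μ e'
    rw [Function.update_of_ne hne]
    exact hp1.2 e' (Finset.mem_insert_of_mem he')
  · rintro ⟨lab, v⟩ hp ⟨lab', v'⟩ hp' h
    simp only [Finset.coe_sigma, Set.mem_sigma_iff, Finset.mem_coe, Finset.mem_compl] at hp hp'
    have hl := (mem_agree.mp hp.1).2 e (Finset.mem_insert_self _ _)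
    have hl' := (mem_agree.mp hp'.1).2 e (Finset.mem_insert_self _ _)
    simp only at h
    have hv : v = v' := by
      have := congrFun h e
      rw [Function.update_self, Function.update_self] at this
      exact this
    have hlab : lab = lab' := by
      funext e'
      by_cases h' : e' = e
      · rw [h', hl, hl']
      · have := congrFun h e'
        rw [Function.update_of_ne h', Function.update_of_ne h'] at this
        exact this
    rw [hv, hlab]

theorem card_agree_le (src tgt : E → V) (Δ : ℕ) (hdeg : ∀ v, deg src tgt v ≤ Δ)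
    (A : Finset E) (μ : E → V) :
    (agree src tgt A μ).card * (Fintype.card V - 2 * Δ) ^ A.card ≤ (red src tgt).card := by
  induction A using Finset.induction_on with
  | empty =>
    rw [Finset.card_empty, pow_zero, mul_one]
    refine Finset.card_le_card ?_
    intro lab h
    exact mem_red.mpr (mem_agree.mp h).1
  | insert e A he ih =>
    rw [Finset.card_insert_of_notMem he, pow_succ']
    rw [← mul_assoc]
    exact (Nat.mul_le_mul_right _ (card_agree_insert src tgt Δ hdeg A e he μ)).trans ih

end Agree

section Count

variable {V E : Type} [Fintype V] [DecidableEq V] [Fintype E] [DecidableEq E]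

/-- the base vertices of a set of half-edges -/
def FS (src tgt : E → V) (S : Finset (E × Bool)) : Finset V := S.image (base src tgt)

/-- the edges of a set of half-edges -/
def AS (S : Finset (E × Bool)) : Finset E := S.image Prod.fst

/-- the reduced labelings for which `S` has too few vertices -/
noncomputable def bad (src tgt : E → V) (S : Finset (E × Bool)) : Finset (E → V) :=
  (red src tgt).filter fun lab => (FS src tgt S ∪ (AS S).image lab).card < S.card

theorem exists_cover (L : Finset V) (t : ℕ) (hL : L.card ≤ t) (v0 : V) :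
    ∃ τ : Fin t → V, L ⊆ Finset.univ.image τ := by
  classical
  refine ⟨fun i => if h : i.1 < L.card then (L.equivFin.symm ⟨i.1, h⟩).1 else v0, ?_⟩
  intro v hv
  rw [Finset.mem_image]
  have h1 : (L.equivFin ⟨v, hv⟩).1 < L.card := (L.equivFin ⟨v, hv⟩).2
  refine ⟨⟨(L.equivFin ⟨v, hv⟩).1, by omega⟩, Finset.mem_univ _, ?_⟩
  simp

theorem card_bad_le (src tgt : E → V) (Δ : ℕ) (hdeg : ∀ v, deg src tgt v ≤ Δ)
    (S : Finset (E × Bool)) (t : ℕ) (ht : (FS src tgt S).card + t + 1 = S.card) :
    (bad src tgt S).card * (Fintype.card V - 2 * Δ) ^ (AS S).card ≤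
      Fintype.card V ^ t * (S.card ^ (AS S).card * (red src tgt).card) := by
  classical
  have hSne : S.Nonempty := by
    rw [← Finset.card_pos]
    omega
  obtain ⟨h0, hh0⟩ := hSne
  set P := fun τ : Fin t → V => Fintype.piFinset
    (fun e => if e ∈ AS S then FS src tgt S ∪ Finset.univ.image τ else {src e}) with hP
  have hPcard : ∀ τ, (P τ).card ≤ S.card ^ (AS S).card := by
    intro τ
    rw [hP]
    simp only
    rw [Fintype.card_piFinset]
    have h1 : ∀ e ∈ (Finset.univ : Finset E),
        (if e ∈ AS S then FS src tgt S ∪ Finset.univ.image τ else {src e}).card ≤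
          (if e ∈ AS S then S.card else 1) := by
      intro e _
      by_cases he : e ∈ AS S
      · rw [if_pos he, if_pos he]
        refine (Finset.card_union_le _ _).trans ?_
        have : (Finset.univ.image τ).card ≤ t := by
          refine Finset.card_image_le.trans ?_
          rw [Finset.card_univ, Fintype.card_fin]
        omega
      · rw [if_neg he, if_neg he, Finset.card_singleton]
    refine (Finset.prod_le_prod' h1).trans ?_
    rw [Finset.prod_ite_mem, Finset.univ_inter, Finset.prod_const]
  have hsub : bad src tgt S ⊆ (Finset.univ : Finset (Fin t → V)).biUnion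
      (fun τ => (P τ).biUnion (fun μ => agree src tgt (AS S) μ)) := by
    intro lab hlab
    unfold bad at hlab
    rw [Finset.mem_filter] at hlab
    obtain ⟨hl1, hl2⟩ := hlab
    have hL : ((AS S).image lab \ FS src tgt S).card ≤ t := by
      have h2 := Finset.card_sdiff_add_card (s := (AS S).image lab) (t := FS src tgt S)
      rw [Finset.union_comm] at h2
      omega
    obtain ⟨τ, hτ⟩ := exists_cover _ t hL (src h0.1)
    rw [Finset.mem_biUnion]
    refine ⟨τ, Finset.mem_univ _, ?_⟩
    rw [Finset.mem_biUnion]
    refine ⟨fun e => if e ∈ AS S then lab e else src e, ?_, ?_⟩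
    · rw [hP]
      simp only
      rw [Fintype.mem_piFinset]
      intro e
      by_cases he : e ∈ AS S
      · rw [if_pos he, if_pos he]
        by_cases hF : lab e ∈ FS src tgt S
        · exact Finset.mem_union_left _ hF
        · refine Finset.mem_union_right _ (hτ ?_)
          rw [Finset.mem_sdiff]
          exact ⟨Finset.mem_image_of_mem _ he, hF⟩
      · rw [if_neg he, if_neg he]
        exact Finset.mem_singleton_self _
    · rw [mem_agree]
      refine ⟨mem_red.mp hl1, ?_⟩
      intro e he
      rw [if_pos he]
  calc (bad src tgt S).card * (Fintype.card V - 2 * Δ) ^ (AS S).card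
      ≤ (∑ τ : Fin t → V, ∑ μ ∈ P τ, (agree src tgt (AS S) μ).card) *
          (Fintype.card V - 2 * Δ) ^ (AS S).card := by
        refine Nat.mul_le_mul_right _ ((Finset.card_le_card hsub).trans
          (Finset.card_biUnion_le.trans ?_))
        exact Finset.sum_le_sum (fun τ _ => Finset.card_biUnion_le)
    _ = ∑ τ : Fin t → V, ∑ μ ∈ P τ, (agree src tgt (AS S) μ).card *
          (Fintype.card V - 2 * Δ) ^ (AS S).card := by
        rw [Finset.sum_mul]
        refine Finset.sum_congr rfl (fun τ _ => ?_)
        rw [Finset.sum_mul]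
    _ ≤ ∑ _τ : Fin t → V, S.card ^ (AS S).card * (red src tgt).card := by
        refine Finset.sum_le_sum (fun τ _ => ?_)
        refine (Finset.sum_le_card_nsmul _ _ (red src tgt).card
          (fun μ _ => card_agree_le src tgt Δ hdeg _ μ)).trans ?_
        rw [smul_eq_mul]
        exact Nat.mul_le_mul_right _ (hPcard τ)
    _ = Fintype.card V ^ t * (S.card ^ (AS S).card * (red src tgt).card) := by
        rw [Finset.sum_const, Finset.card_univ, Fintype.card_fun, Fintype.card_fin, smul_eq_mul]

theorem FS_insert (src tgt : E → V) (h : E × Bool) (S : Finset (E × Bool)) :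
    FS src tgt (insert h S) = insert (base src tgt h) (FS src tgt S) := by
  unfold FS
  rw [Finset.image_insert]

theorem AS_insert (h : E × Bool) (S : Finset (E × Bool)) :
    AS (insert h S) = insert h.1 (AS S) := by
  unfold AS
  rw [Finset.image_insert]

theorem base_cases {src tgt : E → V} (R : Rooting src tgt) (h : E × Bool) :
    base src tgt h = R.par h.1 ∨ base src tgt h = R.ch h.1 := by
  unfold base
  rcases R.ends h.1 with ⟨h1, h2⟩ | ⟨h1, h2⟩ <;> rcases h with ⟨e, b⟩ <;> cases b <;> simp_all

theorem src_ne_tgt {src tgt : E → V} (R : Rooting src tgt) (e : E) : src e ≠ tgt e := by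
  intro h
  have h1 := R.lt e
  rcases R.ends e with ⟨h2, h3⟩ | ⟨h2, h3⟩
  · rw [h2, h3, h] at h1
    exact lt_irrefl _ h1
  · rw [h2, h3, h] at h1
    exact lt_irrefl _ h1

theorem base_inj {src tgt : E → V} (R : Rooting src tgt) (h h' : E × Bool)
    (h1 : h.1 = h'.1) (h2 : base src tgt h = base src tgt h') : h = h' := by
  have h3 := src_ne_tgt R h'.1
  rcases h with ⟨e, b⟩
  rcases h' with ⟨e', b'⟩
  simp only at h1
  subst h1
  unfold base at h2
  cases b <;> cases b' <;> simp_all

theorem exists_base_ch {src tgt : E → V} (R : Rooting src tgt) (e : E) :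
    ∃ b : Bool, base src tgt (e, b) = R.ch e := by
  rcases R.ends e with ⟨_, h2⟩ | ⟨_, h2⟩
  · exact ⟨false, by unfold base; simp [h2]⟩
  · exact ⟨true, by unfold base; simp [h2]⟩

theorem exists_removal {src tgt : E → V} (R : Rooting src tgt) (S : Finset (E × Bool))
    (hS : S.Nonempty) : ∃ h ∈ S,
      ((FS src tgt S).card + (AS S).card =
          (FS src tgt (S.erase h)).card + (AS (S.erase h)).card + 1 ∧
        (base src tgt h ∈ FS src tgt (S.erase h) ∨ h.1 ∈ AS (S.erase h))) ∨
      ((FS src tgt S).card + (AS S).card =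
          (FS src tgt (S.erase h)).card + (AS (S.erase h)).card + 2) := by
  have hFS : ∀ h ∈ S, FS src tgt S = insert (base src tgt h) (FS src tgt (S.erase h)) := by
    intro h hh
    rw [← FS_insert, Finset.insert_erase hh]
  have hAS : ∀ h ∈ S, AS S = insert h.1 (AS (S.erase h)) := by
    intro h hh
    rw [← AS_insert, Finset.insert_erase hh]
  by_cases hc : ∃ h ∈ S, h.1 ∉ AS (S.erase h)
  · obtain ⟨h, hh, hA⟩ := hc
    refine ⟨h, hh, ?_⟩
    rw [hAS h hh, Finset.card_insert_of_notMem hA]
    by_cases hF : base src tgt h ∈ FS src tgt (S.erase h)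
    · left
      refine ⟨?_, Or.inl hF⟩
      rw [hFS h hh, Finset.insert_eq_of_mem hF]
      omega
    · right
      rw [hFS h hh, Finset.card_insert_of_notMem hF]
      omega
  · push Not at hc
    have hASne : (AS S).Nonempty := by
      unfold AS
      exact hS.image _
    obtain ⟨e, heA, hmax⟩ := Finset.exists_max_image (AS S) (fun e => R.dep (R.ch e)) hASne
    obtain ⟨b, hb⟩ := exists_base_ch R e
    -- both half-edges of `e` are in `S`
    have hboth : ∀ b : Bool, (e, b) ∈ S := by
      unfold AS at heA
      rw [Finset.mem_image] at heA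
      obtain ⟨⟨e', b'⟩, hh, he'⟩ := heA
      simp only at he'
      subst he'
      have h1 := hc _ hh
      unfold AS at h1
      rw [Finset.mem_image] at h1
      obtain ⟨⟨e2, b2⟩, hh2, he2⟩ := h1
      simp only at he2
      subst he2
      rw [Finset.mem_erase] at hh2
      obtain ⟨hne, hh2⟩ := hh2
      have hne' : b2 ≠ b' := fun h => hne (by rw [h])
      intro b
      by_cases hbb : b = b'
      · rw [hbb]; exact hh
      · have : b = b2 := by
          cases b <;> cases b' <;> cases b2 <;> simp_all
        rw [this]; exact hh2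
    refine ⟨(e, b), hboth b, Or.inl ⟨?_, Or.inr (hc _ (hboth b))⟩⟩
    have hF : base src tgt (e, b) ∉ FS src tgt (S.erase (e, b)) := by
      intro h
      unfold FS at h
      rw [Finset.mem_image] at h
      obtain ⟨h', hh', hb'⟩ := h
      rw [Finset.mem_erase] at hh'
      obtain ⟨hne, hh'⟩ := hh'
      have hA' : h'.1 ∈ AS S := by
        unfold AS
        exact Finset.mem_image_of_mem _ hh'
      rcases base_cases R h' with h2 | h2
      · have h3 := R.lt h'.1
        have h4 := hmax _ hA'
        rw [← h2, hb', hb] at h3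
        omega
      · have h3 : h'.1 = e := R.inj (by rw [← h2, hb', hb])
        exact hne (base_inj R _ _ h3 hb')
    rw [hFS _ (hboth b), Finset.card_insert_of_notMem hF, hAS _ (hboth b),
      Finset.insert_eq_of_mem (hc _ (hboth b))]
    omega

theorem card_le_add {src tgt : E → V} (R : Rooting src tgt) (k : ℕ) (S : Finset (E × Bool))
    (hS : S.card = k) : k ≤ (FS src tgt S).card + (AS S).card := by
  induction k generalizing S with
  | zero => omega
  | succ k ih =>
    have hne : S.Nonempty := by
      rw [← Finset.card_pos]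
      omega
    obtain ⟨h, hh, hor⟩ := exists_removal R S hne
    have h1 := ih (S.erase h) (by rw [Finset.card_erase_of_mem hh, hS]; rfl)
    rcases hor with ⟨h2, _⟩ | h2 <;> omega

/-- the sets of `k` half-edges with `|F| + |A| = k + β` -/
noncomputable def cl (src tgt : E → V) (k β : ℕ) : Finset (Finset (E × Bool)) :=
  Finset.univ.filter fun S => S.card = k ∧ (FS src tgt S).card + (AS S).card = k + β

theorem mem_cl {src tgt : E → V} {k β : ℕ} {S : Finset (E × Bool)} :
    S ∈ cl src tgt k β ↔ S.card = k ∧ (FS src tgt S).card + (AS S).card = k + β := by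
  unfold cl
  simp

/-- the half-edges near `S` -/
def near (src tgt : E → V) (S : Finset (E × Bool)) : Finset (E × Bool) :=
  Finset.univ.filter fun h => base src tgt h ∈ FS src tgt S ∨ h.1 ∈ AS S

theorem card_base_eq_le {src tgt : E → V} (R : Rooting src tgt) (Δ : ℕ)
    (hdeg : ∀ v, deg src tgt v ≤ Δ) (v : V) :
    (Finset.univ.filter fun h : E × Bool => base src tgt h = v).card ≤ Δ := by
  refine le_trans ?_ (hdeg v)
  unfold deg
  refine Finset.card_le_card_of_injOn Prod.fst ?_ ?_
  · rintro ⟨e, b⟩ hh
    rw [Finset.mem_coe, Finset.mem_filter] at hh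
    rw [Finset.mem_coe, Finset.mem_filter]
    refine ⟨Finset.mem_univ _, ?_⟩
    have h2 := hh.2
    unfold base at h2
    cases b
    · right; simpa using h2
    · left; simpa using h2
  · intro h hh h' hh' heq
    rw [Finset.mem_coe, Finset.mem_filter] at hh hh'
    exact base_inj R h h' heq (hh.2.trans hh'.2.symm)

theorem card_near_le {src tgt : E → V} (R : Rooting src tgt) (Δ : ℕ)
    (hdeg : ∀ v, deg src tgt v ≤ Δ) (S : Finset (E × Bool)) :
    (near src tgt S).card ≤ S.card * Δ + 2 * S.card := by
  have hsub : near src tgt S ⊆ (FS src tgt S).biUnion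
      (fun v => Finset.univ.filter fun h : E × Bool => base src tgt h = v) ∪
        (AS S) ×ˢ (Finset.univ : Finset Bool) := by
    intro h hh
    unfold near at hh
    rw [Finset.mem_filter] at hh
    rcases hh.2 with h1 | h1
    · apply Finset.mem_union_left
      rw [Finset.mem_biUnion]
      exact ⟨_, h1, by simp⟩
    · apply Finset.mem_union_right
      rw [Finset.mem_product]
      exact ⟨h1, Finset.mem_univ _⟩
  refine (Finset.card_le_card hsub).trans ((Finset.card_union_le _ _).trans ?_)
  apply Nat.add_le_add
  · refine (Finset.card_biUnion_le_card_mul _ _ Δ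
      (fun v _ => card_base_eq_le R Δ hdeg v)).trans ?_
    exact Nat.mul_le_mul_right _ Finset.card_image_le
  · rw [Finset.card_product, Finset.card_univ, Fintype.card_bool, mul_comm]
    exact Nat.mul_le_mul_left _ Finset.card_image_le

/-- the constant -/
def Cst : ℕ → ℕ
  | 0 => 1
  | k + 1 => Cst k * (3 * k + 2)

theorem card_cl_le {src tgt : E → V} (R : Rooting src tgt) (Δ : ℕ) (hΔ : 1 ≤ Δ)
    (hcard : Fintype.card E ≤ Fintype.card V) (hV : 1 ≤ Fintype.card V)
    (hdeg : ∀ v, deg src tgt v ≤ Δ) (k β : ℕ) :
    (cl src tgt k β).card ≤ Cst k * Δ ^ k * Fintype.card V ^ β := by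
  induction k generalizing β with
  | zero =>
    have h1 : cl src tgt 0 β ⊆ {∅} := by
      intro S hS
      rw [mem_cl, Finset.card_eq_zero] at hS
      rw [Finset.mem_singleton]
      exact hS.1
    refine (Finset.card_le_card h1).trans ?_
    rw [Finset.card_singleton]
    show 1 ≤ 1 * Δ ^ 0 * Fintype.card V ^ β
    rw [pow_zero, mul_one, one_mul]
    exact Nat.one_le_pow _ _ hV
  | succ k ih =>
    set U : Finset (Finset (E × Bool)) := Finset.univ.filter
      (fun S => S.card = k ∧ (FS src tgt S).card + (AS S).card + 1 = k + β) with hU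
    have hsub : cl src tgt (k + 1) β ⊆
        (cl src tgt k β).biUnion (fun S => (near src tgt S).image (fun h => insert h S)) ∪
          U.biUnion (fun S => (Finset.univ : Finset (E × Bool)).image (fun h => insert h S)) := by
      intro S hS
      rw [mem_cl] at hS
      have hne : S.Nonempty := by
        rw [← Finset.card_pos]
        omega
      obtain ⟨h, hh, hor⟩ := exists_removal R S hne
      have hce : (S.erase h).card = k := by
        rw [Finset.card_erase_of_mem hh, hS.1]; rfl
      rcases hor with ⟨h2, h3⟩ | h2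
      · apply Finset.mem_union_left
        rw [Finset.mem_biUnion]
        refine ⟨S.erase h, ?_, ?_⟩
        · rw [mem_cl]
          exact ⟨hce, by omega⟩
        · rw [Finset.mem_image]
          refine ⟨h, ?_, Finset.insert_erase hh⟩
          unfold near
          rw [Finset.mem_filter]
          exact ⟨Finset.mem_univ _, h3⟩
      · apply Finset.mem_union_right
        rw [Finset.mem_biUnion]
        refine ⟨S.erase h, ?_, ?_⟩
        · rw [hU, Finset.mem_filter]
          exact ⟨Finset.mem_univ _, hce, by omega⟩
        · rw [Finset.mem_image]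
          exact ⟨h, Finset.mem_univ _, Finset.insert_erase hh⟩
    have h1 : ((cl src tgt k β).biUnion
        (fun S => (near src tgt S).image (fun h => insert h S))).card ≤
          (cl src tgt k β).card * (3 * k * Δ) := by
      refine Finset.card_biUnion_le_card_mul _ _ _ ?_
      intro S hS
      rw [mem_cl] at hS
      refine Finset.card_image_le.trans ((card_near_le R Δ hdeg S).trans ?_)
      rw [hS.1]
      nlinarith [Nat.mul_le_mul_left k hΔ]
    have h2 : (U.biUnion
        (fun S => (Finset.univ : Finset (E × Bool)).image (fun h => insert h S))).card ≤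
          U.card * (2 * Fintype.card V) := by
      refine Finset.card_biUnion_le_card_mul _ _ _ ?_
      intro S _
      refine Finset.card_image_le.trans ?_
      rw [Finset.card_univ, Fintype.card_prod, Fintype.card_bool]
      omega
    have h3 := (Finset.card_le_card hsub).trans ((Finset.card_union_le _ _).trans
      (Nat.add_le_add h1 h2))
    show (cl src tgt (k + 1) β).card ≤ Cst k * (3 * k + 2) * Δ ^ (k + 1) * Fintype.card V ^ β
    cases β with
    | zero =>
      have hU0 : U.card = 0 := by
        rw [Finset.card_eq_zero, hU, Finset.filter_eq_empty_iff]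
        rintro S _ ⟨hS1, hS2⟩
        have := card_le_add R k S hS1
        omega
      rw [hU0, zero_mul, add_zero] at h3
      refine h3.trans ?_
      refine (Nat.mul_le_mul_right _ (ih 0)).trans ?_
      rw [pow_zero, mul_one, mul_one, pow_succ]
      calc Cst k * Δ ^ k * (3 * k * Δ) = (Cst k * Δ ^ k * Δ) * (3 * k) := by ring
        _ ≤ (Cst k * Δ ^ k * Δ) * (3 * k + 2) := Nat.mul_le_mul_left _ (by omega)
        _ = Cst k * (3 * k + 2) * (Δ ^ k * Δ) := by ring
    | succ b =>
      have hUb : U = cl src tgt k b := by
        rw [hU]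
        unfold cl
        refine Finset.filter_congr ?_
        intro S _
        constructor
        · rintro ⟨h1, h2⟩
          exact ⟨h1, by omega⟩
        · rintro ⟨h1, h2⟩
          exact ⟨h1, by omega⟩
      rw [hUb] at h3
      refine h3.trans ?_
      refine (Nat.add_le_add (Nat.mul_le_mul_right _ (ih (b + 1)))
        (Nat.mul_le_mul_right _ (ih b))).trans ?_
      calc Cst k * Δ ^ k * Fintype.card V ^ (b + 1) * (3 * k * Δ) +
            Cst k * Δ ^ k * Fintype.card V ^ b * (2 * Fintype.card V)
          = (Cst k * Δ ^ k * Fintype.card V ^ (b + 1)) * (3 * k * Δ + 2 * 1) := by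
            rw [pow_succ]; ring
        _ ≤ (Cst k * Δ ^ k * Fintype.card V ^ (b + 1)) * (3 * k * Δ + 2 * Δ) :=
            Nat.mul_le_mul_left _ (by omega)
        _ = Cst k * (3 * k + 2) * Δ ^ (k + 1) * Fintype.card V ^ (b + 1) := by
            rw [pow_succ Δ]; ring

theorem bad_eq_empty {src tgt : E → V} (S : Finset (E × Bool))
    (h : S.card ≤ (FS src tgt S).card) : bad src tgt S = ∅ := by
  unfold bad
  rw [Finset.filter_eq_empty_iff]
  intro lab _ h1
  have h2 : (FS src tgt S).card ≤ (FS src tgt S ∪ (AS S).image lab).card :=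
    Finset.card_le_card Finset.subset_union_left
  omega

theorem card_bad_le' {src tgt : E → V} (Δ : ℕ) (hdeg : ∀ v, deg src tgt v ≤ Δ)
    (hN : 4 * Δ ≤ Fintype.card V) (hV : 1 ≤ Fintype.card V) (T k β : ℕ) (hk : k ≤ T)
    (S : Finset (E × Bool)) (hS : S ∈ cl src tgt k β) :
    (bad src tgt S).card * Fintype.card V ^ (β + 1) ≤ (2 * T + 1) ^ T * (red src tgt).card := by
  rw [mem_cl] at hS
  obtain ⟨hS1, hS2⟩ := hS
  by_cases hf : S.card ≤ (FS src tgt S).card
  · rw [bad_eq_empty S hf, Finset.card_empty, zero_mul]
    exact Nat.zero_le _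
  · push Not at hf
    obtain ⟨t, ht⟩ : ∃ t, (FS src tgt S).card + t + 1 = S.card :=
      ⟨S.card - (FS src tgt S).card - 1, by omega⟩
    have h1 := card_bad_le src tgt Δ hdeg S t ht
    have ha : (AS S).card = t + (β + 1) := by omega
    have hak : (AS S).card ≤ T := by
      refine le_trans ?_ hk
      rw [← hS1]
      exact Finset.card_image_le
    have h2 : Fintype.card V ^ (AS S).card ≤
        2 ^ (AS S).card * (Fintype.card V - 2 * Δ) ^ (AS S).card := by
      rw [← mul_pow]
      exact Nat.pow_le_pow_left (by omega) _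
    have h3 : (2 * S.card) ^ (AS S).card ≤ (2 * T + 1) ^ T := by
      refine (Nat.pow_le_pow_left (show 2 * S.card ≤ 2 * T + 1 by omega) _).trans ?_
      exact Nat.pow_le_pow_right (by omega) hak
    have h4 : Fintype.card V ^ t * ((bad src tgt S).card * Fintype.card V ^ (β + 1)) ≤
        Fintype.card V ^ t * ((2 * T + 1) ^ T * (red src tgt).card) := by
      calc Fintype.card V ^ t * ((bad src tgt S).card * Fintype.card V ^ (β + 1))
          = (bad src tgt S).card * Fintype.card V ^ (AS S).card := by
            rw [ha, pow_add]; ring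
        _ ≤ (bad src tgt S).card *
            (2 ^ (AS S).card * (Fintype.card V - 2 * Δ) ^ (AS S).card) :=
            Nat.mul_le_mul_left _ h2
        _ = 2 ^ (AS S).card *
            ((bad src tgt S).card * (Fintype.card V - 2 * Δ) ^ (AS S).card) := by ring
        _ ≤ 2 ^ (AS S).card *
            (Fintype.card V ^ t * (S.card ^ (AS S).card * (red src tgt).card)) :=
            Nat.mul_le_mul_left _ h1
        _ = Fintype.card V ^ t * ((2 * S.card) ^ (AS S).card * (red src tgt).card) := by
            rw [mul_pow]; ring
        _ ≤ Fintype.card V ^ t * ((2 * T + 1) ^ T * (red src tgt).card) :=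
            Nat.mul_le_mul_left _ (Nat.mul_le_mul_right _ h3)
    exact Nat.le_of_mul_le_mul_left h4 (Nat.pow_pos hV)

theorem sum_cl_le {src tgt : E → V} (R : Rooting src tgt) (Δ : ℕ) (hΔ : 1 ≤ Δ)
    (hcard : Fintype.card E ≤ Fintype.card V) (hV : 1 ≤ Fintype.card V)
    (hdeg : ∀ v, deg src tgt v ≤ Δ)
    (hN : 4 * Δ ≤ Fintype.card V) (T k β : ℕ) (hk : k ≤ T) :
    Fintype.card V * ∑ S ∈ cl src tgt k β, (bad src tgt S).card ≤
      Cst k * (2 * T + 1) ^ T * Δ ^ T * (red src tgt).card := by
  have h1 : Fintype.card V ^ β * (Fintype.card V * ∑ S ∈ cl src tgt k β, (bad src tgt S).card) ≤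
      Fintype.card V ^ β * (Cst k * (2 * T + 1) ^ T * Δ ^ T * (red src tgt).card) := by
    calc Fintype.card V ^ β * (Fintype.card V * ∑ S ∈ cl src tgt k β, (bad src tgt S).card)
        = ∑ S ∈ cl src tgt k β, (bad src tgt S).card * Fintype.card V ^ (β + 1) := by
          rw [← Finset.sum_mul, pow_succ]; ring
      _ ≤ (cl src tgt k β).card • ((2 * T + 1) ^ T * (red src tgt).card) :=
          Finset.sum_le_card_nsmul _ _ _ (fun S hS => card_bad_le' Δ hdeg hN hV T k β hk S hS)
      _ ≤ (Cst k * Δ ^ k * Fintype.card V ^ β) * ((2 * T + 1) ^ T * (red src tgt).card) := by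
          rw [smul_eq_mul]
          exact Nat.mul_le_mul_right _ (card_cl_le R Δ hΔ hcard hV hdeg k β)
      _ ≤ (Cst k * Δ ^ T * Fintype.card V ^ β) * ((2 * T + 1) ^ T * (red src tgt).card) := by
          refine Nat.mul_le_mul_right _ (Nat.mul_le_mul_right _ (Nat.mul_le_mul_left _ ?_))
          exact Nat.pow_le_pow_right hΔ hk
      _ = Fintype.card V ^ β * (Cst k * (2 * T + 1) ^ T * Δ ^ T * (red src tgt).card) := by ring
  exact Nat.le_of_mul_le_mul_left h1 (Nat.pow_pos hV)

open Classical in
/-- the reduced labelings that are not sparse -/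
noncomputable def nsp (T : ℕ) (src tgt : E → V) : Finset (E → V) :=
  Finset.univ.filter (fun lab => Reduced src tgt lab ∧ ¬ Sparse T src tgt lab)

theorem nsp_subset {src tgt : E → V} (R : Rooting src tgt) (T : ℕ) :
    nsp T src tgt ⊆ (Finset.range (T + 1)).biUnion (fun k => (Finset.range (T + 1)).biUnion
      (fun β => (cl src tgt k β).biUnion (fun S => bad src tgt S))) := by
  classical
  intro lab hlab
  unfold nsp at hlab
  rw [Finset.mem_filter] at hlab
  obtain ⟨_, hr, hs⟩ := hlab
  unfold Sparse at hs
  push Not at hs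
  obtain ⟨S, hST, hS⟩ := hs
  have hle := card_le_add R S.card S rfl
  have hF : (FS src tgt S).card ≤ S.card := Finset.card_image_le
  have hA : (AS S).card ≤ S.card := Finset.card_image_le
  rw [Finset.mem_biUnion]
  refine ⟨S.card, Finset.mem_range.mpr (by omega), ?_⟩
  rw [Finset.mem_biUnion]
  refine ⟨(FS src tgt S).card + (AS S).card - S.card, Finset.mem_range.mpr (by omega), ?_⟩
  rw [Finset.mem_biUnion]
  refine ⟨S, ?_, ?_⟩
  · rw [mem_cl]
    exact ⟨rfl, by omega⟩
  · unfold bad
    rw [Finset.mem_filter]
    refine ⟨mem_red.mpr hr, ?_⟩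
    have : (AS S).image lab = S.image (fun h => lab h.1) := by
      unfold AS
      rw [Finset.image_image]
      rfl
    rw [this]
    exact hS

/-- the constant of the theorem -/
def Ctot (T : ℕ) : ℕ :=
  4 + ∑ k ∈ Finset.range (T + 1), ∑ _β ∈ Finset.range (T + 1), Cst k * (2 * T + 1) ^ T

theorem card_nsp_le {src tgt : E → V} (T Δ : ℕ)
    (hcard : Fintype.card V = Fintype.card E + 1)
    (hconn : ∀ u v, Relation.ReflTransGen (Adj src tgt) u v)
    (hdeg : ∀ v, deg src tgt v ≤ Δ) :
    Fintype.card E * (nsp T src tgt).card ≤ Ctot T * Δ ^ T * (red src tgt).card := by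
  classical
  obtain ⟨R⟩ := exists_rooting src tgt hcard hconn
  rcases Nat.eq_zero_or_pos (Fintype.card E) with hE | hE
  · rw [hE, zero_mul]
    exact Nat.zero_le _
  obtain ⟨e0⟩ : Nonempty E := Fintype.card_pos_iff.mp hE
  have hΔ : 1 ≤ Δ := by
    refine le_trans ?_ (hdeg (src e0))
    unfold deg
    rw [Nat.one_le_iff_ne_zero, ← Nat.pos_iff_ne_zero, Finset.card_pos]
    exact ⟨e0, by simp⟩
  have hV : 1 ≤ Fintype.card V := by omega
  by_cases hN : 4 * Δ ≤ Fintype.card V
  · have h1 : (nsp T src tgt).card ≤ ∑ k ∈ Finset.range (T + 1), ∑ β ∈ Finset.range (T + 1),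
        ∑ S ∈ cl src tgt k β, (bad src tgt S).card := by
      refine (Finset.card_le_card (nsp_subset R T)).trans (Finset.card_biUnion_le.trans ?_)
      refine Finset.sum_le_sum (fun k _ => Finset.card_biUnion_le.trans ?_)
      exact Finset.sum_le_sum (fun β _ => Finset.card_biUnion_le)
    calc Fintype.card E * (nsp T src tgt).card
        ≤ Fintype.card V * (∑ k ∈ Finset.range (T + 1), ∑ β ∈ Finset.range (T + 1),
            ∑ S ∈ cl src tgt k β, (bad src tgt S).card) :=
          Nat.mul_le_mul (by omega) h1
      _ = ∑ k ∈ Finset.range (T + 1), ∑ β ∈ Finset.range (T + 1),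
            Fintype.card V * ∑ S ∈ cl src tgt k β, (bad src tgt S).card := by
          rw [Finset.mul_sum]
          refine Finset.sum_congr rfl (fun k _ => ?_)
          rw [Finset.mul_sum]
      _ ≤ ∑ k ∈ Finset.range (T + 1), ∑ _β ∈ Finset.range (T + 1),
            Cst k * (2 * T + 1) ^ T * Δ ^ T * (red src tgt).card := by
          refine Finset.sum_le_sum (fun k hk => Finset.sum_le_sum (fun β _ => ?_))
          rw [Finset.mem_range] at hk
          exact sum_cl_le R Δ hΔ (by omega) hV hdeg hN T k β (by omega)
      _ = (∑ k ∈ Finset.range (T + 1), ∑ _β ∈ Finset.range (T + 1),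
            Cst k * (2 * T + 1) ^ T) * Δ ^ T * (red src tgt).card := by
          rw [Finset.sum_mul, Finset.sum_mul]
          refine Finset.sum_congr rfl (fun k _ => ?_)
          rw [Finset.sum_mul, Finset.sum_mul]
      _ ≤ Ctot T * Δ ^ T * (red src tgt).card := by
          refine Nat.mul_le_mul_right _ (Nat.mul_le_mul_right _ ?_)
          unfold Ctot
          omega
  · push Not at hN
    rcases Nat.eq_zero_or_pos T with hT | hT
    · have h0 : (nsp T src tgt).card = 0 := by
        rw [Finset.card_eq_zero]
        unfold nsp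
        rw [Finset.filter_eq_empty_iff]
        rintro lab _ ⟨_, hs⟩
        apply hs
        intro A hA
        rw [hT] at hA
        omega
      rw [h0, mul_zero]
      exact Nat.zero_le _
    · have h1 : (nsp T src tgt).card ≤ (red src tgt).card := by
        refine Finset.card_le_card ?_
        intro lab hlab
        unfold nsp at hlab
        rw [Finset.mem_filter] at hlab
        exact mem_red.mpr hlab.2.1
      have h2 : Δ ≤ Δ ^ T := by
        calc Δ = Δ ^ 1 := (pow_one _).symm
          _ ≤ Δ ^ T := Nat.pow_le_pow_right hΔ hT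
      have h3 : Fintype.card E ≤ Ctot T * Δ ^ T := by
        calc Fintype.card E ≤ 4 * Δ := by omega
          _ ≤ Ctot T * Δ ^ T := by
            refine Nat.mul_le_mul ?_ h2
            unfold Ctot
            omega
      exact Nat.mul_le_mul h3 h1

end Count

end Cnt

/-- In an oriented tree with `n` edges and maximum degree at most `Δ`, the proportion of the reduced
labelings that are not sparse is at most `C Δ^T / n`. -/
theorem count_not_sparse (T : ℕ) : ∃ C : ℕ, ∀ (n Δ : ℕ) (src tgt : Fin n → Fin (n + 1)),
    (∀ u v, Relation.ReflTransGen (Adj src tgt) u v) → (∀ v, deg src tgt v ≤ Δ) →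
    n * Nat.card {lab : Fin n → Fin (n + 1) // Reduced src tgt lab ∧ ¬ Sparse T src tgt lab} ≤
      C * Δ ^ T * Nat.card {lab : Fin n → Fin (n + 1) // Reduced src tgt lab} := by
  classical
  refine ⟨Cnt.Ctot T, ?_⟩
  intro n Δ src tgt hconn hdeg
  have h := Cnt.card_nsp_le (src := src) (tgt := tgt) T Δ (by simp) hconn hdeg
  rw [Fintype.card_fin] at h
  have h1 : Nat.card {lab : Fin n → Fin (n + 1) // Reduced src tgt lab ∧ ¬ Sparse T src tgt lab} =
      (Cnt.nsp T src tgt).card := by
    rw [Nat.card_eq_fintype_card, Fintype.card_subtype]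
    unfold Cnt.nsp
    congr
  have h2 : Nat.card {lab : Fin n → Fin (n + 1) // Reduced src tgt lab} =
      (Cnt.red src tgt).card := by
    rw [Nat.card_eq_fintype_card, Fintype.card_subtype]
    unfold Cnt.red
    congr
  rw [h1, h2]
  exact h

end Pool.Agent.RandomLOT
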