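import Pool.Agent.RandomLOT.Count

/-!
# Few labelings of a tree of bounded degree are not sparse: all labelings

The count of `Count.lean` for all labelings instead of the reduced ones.
-/

set_option autoImplicit false
set_option linter.unusedSectionVars false

open scoped BigOperators

namespace Pool.Agent.RandomLOT

namespace Cnt

variable {V E : Type} [Fintype V] [DecidableEq V] [Fintype E] [DecidableEq E]

theorem card_prescribed (A : Finset E) (μ : E → V) :
    (Finset.univ.filter fun lab : E → V => ∀ e ∈ A, lab e = μ e).card * Fintype.card V ^ A.card =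
      Fintype.card V ^ Fintype.card E := by
  have h1 : (Finset.univ.filter fun lab : E → V => ∀ e ∈ A, lab e = μ e) =
      Fintype.piFinset (fun e => if e ∈ A then ({μ e} : Finset V) else Finset.univ) := by
    ext lab
    rw [Finset.mem_filter, Fintype.mem_piFinset]
    constructor
    · rintro ⟨_, h⟩ e
      by_cases he : e ∈ A
      · rw [if_pos he, Finset.mem_singleton]; exact h e he
      · rw [if_neg he]; exact Finset.mem_univ _
    · intro h
      refine ⟨Finset.mem_univ _, fun e he => ?_⟩
      have h2 := h e
      rw [if_pos he, Finset.mem_singleton] at h2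
      exact h2
  have h2 : Fintype.card V ^ A.card = ∏ e : E, (if e ∈ A then Fintype.card V else 1) := by
    rw [Finset.prod_ite_mem, Finset.univ_inter, Finset.prod_const]
  rw [h1, Fintype.card_piFinset, h2, ← Finset.prod_mul_distrib]
  have h3 : ∀ e ∈ (Finset.univ : Finset E),
      (if e ∈ A then ({μ e} : Finset V) else Finset.univ).card *
        (if e ∈ A then Fintype.card V else 1) = Fintype.card V := by
    intro e _
    by_cases he : e ∈ A
    · rw [if_pos he, if_pos he, Finset.card_singleton, one_mul]
    · rw [if_neg he, if_neg he, Finset.card_univ, mul_one]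
  rw [Finset.prod_congr rfl h3, Finset.prod_const, Finset.card_univ]

/-- the labelings for which `S` has too few vertices -/
noncomputable def badA (src tgt : E → V) (S : Finset (E × Bool)) : Finset (E → V) :=
  Finset.univ.filter fun lab => (FS src tgt S ∪ (AS S).image lab).card < S.card

theorem card_badA_le (src tgt : E → V)
    (S : Finset (E × Bool)) (t : ℕ) (ht : (FS src tgt S).card + t + 1 = S.card) :
    (badA src tgt S).card * Fintype.card V ^ (AS S).card ≤
      Fintype.card V ^ t * (S.card ^ (AS S).card * Fintype.card V ^ Fintype.card E) := by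
  classical
  have hSne : S.Nonempty := by
    rw [← Finset.card_pos]
    omega
  obtain ⟨h0, hh0⟩ := hSne
  set P := fun τ : Fin t → V => Fintype.piFinset
    (fun e => if e ∈ AS S then FS src tgt S ∪ Finset.univ.image τ else {src e}) with hP
  set ag := fun μ : E → V => Finset.univ.filter fun lab : E → V => ∀ e ∈ AS S, lab e = μ e with hag
  have hPcard : ∀ τ, (P τ).card ≤ S.card ^ (AS S).card := by
    intro τ
    rw [hP]
    simp only
    rw [Fintype.card_piFinset]
    have h1 : ∀ e ∈ (Finset.univ : Finset E),
        (if e ∈ AS S then FS src tgt S ∪ Finset.univ.image τ else {src e}).card ≤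
          (if e ∈ AS S then S.card else 1) := by
      intro e _
      by_cases he : e ∈ AS S
      · rw [if_pos he, if_pos he]
        refine (Finset.card_union_le _ _).trans ?_
        have : (Finset.univ.image τ).card ≤ t := by
          refine Finset.card_image_le.trans ?_
          rw [Finset.card_univ, Fintype.card_fin]
        omega
      · rw [if_neg he, if_neg he, Finset.card_singleton]
    refine (Finset.prod_le_prod' h1).trans ?_
    rw [Finset.prod_ite_mem, Finset.univ_inter, Finset.prod_const]
  have hsub : badA src tgt S ⊆ (Finset.univ : Finset (Fin t → V)).biUnion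
      (fun τ => (P τ).biUnion (fun μ => ag μ)) := by
    intro lab hlab
    unfold badA at hlab
    rw [Finset.mem_filter] at hlab
    obtain ⟨_, hl2⟩ := hlab
    have hL : ((AS S).image lab \ FS src tgt S).card ≤ t := by
      have h2 := Finset.card_sdiff_add_card (s := (AS S).image lab) (t := FS src tgt S)
      rw [Finset.union_comm] at h2
      omega
    obtain ⟨τ, hτ⟩ := exists_cover _ t hL (src h0.1)
    rw [Finset.mem_biUnion]
    refine ⟨τ, Finset.mem_univ _, ?_⟩
    rw [Finset.mem_biUnion]
    refine ⟨fun e => if e ∈ AS S then lab e else src e, ?_, ?_⟩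
    · rw [hP]
      simp only
      rw [Fintype.mem_piFinset]
      intro e
      by_cases he : e ∈ AS S
      · rw [if_pos he, if_pos he]
        by_cases hF : lab e ∈ FS src tgt S
        · exact Finset.mem_union_left _ hF
        · refine Finset.mem_union_right _ (hτ ?_)
          rw [Finset.mem_sdiff]
          exact ⟨Finset.mem_image_of_mem _ he, hF⟩
      · rw [if_neg he, if_neg he]
        exact Finset.mem_singleton_self _
    · rw [hag, Finset.mem_filter]
      refine ⟨Finset.mem_univ _, ?_⟩
      intro e he
      exact (if_pos he).symm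
  calc (badA src tgt S).card * Fintype.card V ^ (AS S).card
      ≤ (∑ τ : Fin t → V, ∑ μ ∈ P τ, (ag μ).card) * Fintype.card V ^ (AS S).card := by
        refine Nat.mul_le_mul_right _ ((Finset.card_le_card hsub).trans
          (Finset.card_biUnion_le.trans ?_))
        exact Finset.sum_le_sum (fun τ _ => Finset.card_biUnion_le)
    _ = ∑ τ : Fin t → V, ∑ μ ∈ P τ, (ag μ).card * Fintype.card V ^ (AS S).card := by
        rw [Finset.sum_mul]
        refine Finset.sum_congr rfl (fun τ _ => ?_)
        rw [Finset.sum_mul]
    _ ≤ ∑ _τ : Fin t → V, S.card ^ (AS S).card * Fintype.card V ^ Fintype.card E := by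
        refine Finset.sum_le_sum (fun τ _ => ?_)
        refine (Finset.sum_le_card_nsmul _ _ (Fintype.card V ^ Fintype.card E)
          (fun μ _ => (card_prescribed (AS S) μ).le)).trans ?_
        rw [smul_eq_mul]
        exact Nat.mul_le_mul_right _ (hPcard τ)
    _ = Fintype.card V ^ t * (S.card ^ (AS S).card * Fintype.card V ^ Fintype.card E) := by
        rw [Finset.sum_const, Finset.card_univ, Fintype.card_fun, Fintype.card_fin, smul_eq_mul]

theorem badA_eq_empty {src tgt : E → V} (S : Finset (E × Bool))
    (h : S.card ≤ (FS src tgt S).card) : badA src tgt S = ∅ := by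
  unfold badA
  rw [Finset.filter_eq_empty_iff]
  intro lab _ h1
  have h2 : (FS src tgt S).card ≤ (FS src tgt S ∪ (AS S).image lab).card :=
    Finset.card_le_card Finset.subset_union_left
  omega

theorem card_badA_le' {src tgt : E → V} (hV : 1 ≤ Fintype.card V) (T k β : ℕ) (hk : k ≤ T)
    (S : Finset (E × Bool)) (hS : S ∈ cl src tgt k β) :
    (badA src tgt S).card * Fintype.card V ^ (β + 1) ≤
      (2 * T + 1) ^ T * Fintype.card V ^ Fintype.card E := by
  rw [mem_cl] at hS
  obtain ⟨hS1, hS2⟩ := hS
  by_cases hf : S.card ≤ (FS src tgt S).card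
  · rw [badA_eq_empty S hf, Finset.card_empty, zero_mul]
    exact Nat.zero_le _
  · push Not at hf
    obtain ⟨t, ht⟩ : ∃ t, (FS src tgt S).card + t + 1 = S.card :=
      ⟨S.card - (FS src tgt S).card - 1, by omega⟩
    have h1 := card_badA_le src tgt S t ht
    have ha : (AS S).card = t + (β + 1) := by omega
    have hak : (AS S).card ≤ T := by
      refine le_trans ?_ hk
      rw [← hS1]
      exact Finset.card_image_le
    have h3 : S.card ^ (AS S).card ≤ (2 * T + 1) ^ T := by
      refine (Nat.pow_le_pow_left (show S.card ≤ 2 * T + 1 by omega) _).trans ?_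
      exact Nat.pow_le_pow_right (by omega) hak
    have h4 : Fintype.card V ^ t * ((badA src tgt S).card * Fintype.card V ^ (β + 1)) ≤
        Fintype.card V ^ t * ((2 * T + 1) ^ T * Fintype.card V ^ Fintype.card E) := by
      calc Fintype.card V ^ t * ((badA src tgt S).card * Fintype.card V ^ (β + 1))
          = (badA src tgt S).card * Fintype.card V ^ (AS S).card := by
            rw [ha, pow_add]; ring
        _ ≤ Fintype.card V ^ t * (S.card ^ (AS S).card * Fintype.card V ^ Fintype.card E) := h1
        _ ≤ Fintype.card V ^ t * ((2 * T + 1) ^ T * Fintype.card V ^ Fintype.card E) :=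
            Nat.mul_le_mul_left _ (Nat.mul_le_mul_right _ h3)
    exact Nat.le_of_mul_le_mul_left h4 (Nat.pow_pos hV)

theorem sum_clA_le {src tgt : E → V} (R : Rooting src tgt) (Δ : ℕ) (hΔ : 1 ≤ Δ)
    (hcard : Fintype.card E ≤ Fintype.card V) (hV : 1 ≤ Fintype.card V)
    (hdeg : ∀ v, deg src tgt v ≤ Δ) (T k β : ℕ) (hk : k ≤ T) :
    Fintype.card V * ∑ S ∈ cl src tgt k β, (badA src tgt S).card ≤
      Cst k * (2 * T + 1) ^ T * Δ ^ T * Fintype.card V ^ Fintype.card E := by
  have h1 : Fintype.card V ^ β * (Fintype.card V * ∑ S ∈ cl src tgt k β, (badA src tgt S).card) ≤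
      Fintype.card V ^ β *
        (Cst k * (2 * T + 1) ^ T * Δ ^ T * Fintype.card V ^ Fintype.card E) := by
    calc Fintype.card V ^ β * (Fintype.card V * ∑ S ∈ cl src tgt k β, (badA src tgt S).card)
        = ∑ S ∈ cl src tgt k β, (badA src tgt S).card * Fintype.card V ^ (β + 1) := by
          rw [← Finset.sum_mul, pow_succ]; ring
      _ ≤ (cl src tgt k β).card • ((2 * T + 1) ^ T * Fintype.card V ^ Fintype.card E) :=
          Finset.sum_le_card_nsmul _ _ _ (fun S hS => card_badA_le' hV T k β hk S hS)
      _ ≤ (Cst k * Δ ^ k * Fintype.card V ^ β) *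
            ((2 * T + 1) ^ T * Fintype.card V ^ Fintype.card E) := by
          rw [smul_eq_mul]
          exact Nat.mul_le_mul_right _ (card_cl_le R Δ hΔ hcard hV hdeg k β)
      _ ≤ (Cst k * Δ ^ T * Fintype.card V ^ β) *
            ((2 * T + 1) ^ T * Fintype.card V ^ Fintype.card E) := by
          refine Nat.mul_le_mul_right _ (Nat.mul_le_mul_right _ (Nat.mul_le_mul_left _ ?_))
          exact Nat.pow_le_pow_right hΔ hk
      _ = Fintype.card V ^ β *
            (Cst k * (2 * T + 1) ^ T * Δ ^ T * Fintype.card V ^ Fintype.card E) := by ring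
  exact Nat.le_of_mul_le_mul_left h1 (Nat.pow_pos hV)

open Classical in
/-- the labelings that are not sparse -/
noncomputable def nspA (T : ℕ) (src tgt : E → V) : Finset (E → V) :=
  Finset.univ.filter (fun lab => ¬ Sparse T src tgt lab)

theorem nspA_subset {src tgt : E → V} (R : Rooting src tgt) (T : ℕ) :
    nspA T src tgt ⊆ (Finset.range (T + 1)).biUnion (fun k => (Finset.range (T + 1)).biUnion
      (fun β => (cl src tgt k β).biUnion (fun S => badA src tgt S))) := by
  classical
  intro lab hlab
  unfold nspA at hlab
  rw [Finset.mem_filter] at hlab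
  obtain ⟨_, hs⟩ := hlab
  unfold Sparse at hs
  push Not at hs
  obtain ⟨S, hST, hS⟩ := hs
  have hle := card_le_add R S.card S rfl
  have hF : (FS src tgt S).card ≤ S.card := Finset.card_image_le
  have hA : (AS S).card ≤ S.card := Finset.card_image_le
  rw [Finset.mem_biUnion]
  refine ⟨S.card, Finset.mem_range.mpr (by omega), ?_⟩
  rw [Finset.mem_biUnion]
  refine ⟨(FS src tgt S).card + (AS S).card - S.card, Finset.mem_range.mpr (by omega), ?_⟩
  rw [Finset.mem_biUnion]
  refine ⟨S, ?_, ?_⟩
  · rw [mem_cl]
    exact ⟨rfl, by omega⟩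
  · unfold badA
    rw [Finset.mem_filter]
    refine ⟨Finset.mem_univ _, ?_⟩
    have : (AS S).image lab = S.image (fun h => lab h.1) := by
      unfold AS
      rw [Finset.image_image]
      rfl
    rw [this]
    exact hS

theorem card_nspA_le {src tgt : E → V} (T Δ : ℕ)
    (hcard : Fintype.card V = Fintype.card E + 1)
    (hconn : ∀ u v, Relation.ReflTransGen (Adj src tgt) u v)
    (hdeg : ∀ v, deg src tgt v ≤ Δ) :
    Fintype.card E * (nspA T src tgt).card ≤
      Ctot T * Δ ^ T * Fintype.card V ^ Fintype.card E := by
  classical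
  obtain ⟨R⟩ := exists_rooting src tgt hcard hconn
  rcases Nat.eq_zero_or_pos (Fintype.card E) with hE | hE
  · rw [hE, zero_mul]
    exact Nat.zero_le _
  obtain ⟨e0⟩ : Nonempty E := Fintype.card_pos_iff.mp hE
  have hΔ : 1 ≤ Δ := by
    refine le_trans ?_ (hdeg (src e0))
    unfold deg
    rw [Nat.one_le_iff_ne_zero, ← Nat.pos_iff_ne_zero, Finset.card_pos]
    exact ⟨e0, by simp⟩
  have hV : 1 ≤ Fintype.card V := by omega
  have h1 : (nspA T src tgt).card ≤ ∑ k ∈ Finset.range (T + 1), ∑ β ∈ Finset.range (T + 1),
      ∑ S ∈ cl src tgt k β, (badA src tgt S).card := by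
    refine (Finset.card_le_card (nspA_subset R T)).trans (Finset.card_biUnion_le.trans ?_)
    refine Finset.sum_le_sum (fun k _ => Finset.card_biUnion_le.trans ?_)
    exact Finset.sum_le_sum (fun β _ => Finset.card_biUnion_le)
  calc Fintype.card E * (nspA T src tgt).card
      ≤ Fintype.card V * (∑ k ∈ Finset.range (T + 1), ∑ β ∈ Finset.range (T + 1),
          ∑ S ∈ cl src tgt k β, (badA src tgt S).card) :=
        Nat.mul_le_mul (by omega) h1
    _ = ∑ k ∈ Finset.range (T + 1), ∑ β ∈ Finset.range (T + 1),
          Fintype.card V * ∑ S ∈ cl src tgt k β, (badA src tgt S).card := by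
        rw [Finset.mul_sum]
        refine Finset.sum_congr rfl (fun k _ => ?_)
        rw [Finset.mul_sum]
    _ ≤ ∑ k ∈ Finset.range (T + 1), ∑ _β ∈ Finset.range (T + 1),
          Cst k * (2 * T + 1) ^ T * Δ ^ T * Fintype.card V ^ Fintype.card E := by
        refine Finset.sum_le_sum (fun k hk => Finset.sum_le_sum (fun β _ => ?_))
        rw [Finset.mem_range] at hk
        exact sum_clA_le R Δ hΔ (by omega) hV hdeg T k β (by omega)
    _ = (∑ k ∈ Finset.range (T + 1), ∑ _β ∈ Finset.range (T + 1),
          Cst k * (2 * T + 1) ^ T) * Δ ^ T * Fintype.card V ^ Fintype.card E := by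
        rw [Finset.sum_mul, Finset.sum_mul]
        refine Finset.sum_congr rfl (fun k _ => ?_)
        rw [Finset.sum_mul, Finset.sum_mul]
    _ ≤ Ctot T * Δ ^ T * Fintype.card V ^ Fintype.card E := by
        refine Nat.mul_le_mul_right _ (Nat.mul_le_mul_right _ ?_)
        unfold Ctot
        omega

end Cnt

end Pool.Agent.RandomLOT
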