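import Pool.Agent.RandomLOT.Squares
import Pool.Agent.WT.LinkDefs

/-!
# The weight condition for relators of length four
-/

set_option autoImplicit false

open scoped BigOperators

namespace Pool.Agent.RandomLOT

open Pool.Agent.FoxAsph

namespace Squares

variable {X ι : Type} (R : ι → Fin 4 → X × Bool)

theorem corner_injective : Function.Injective (corner (ι := ι)) := by
  rintro ⟨i, p, s⟩ ⟨j, q, t⟩ h
  cases s <;> cases t <;> simp [corner] at h
  · obtain ⟨rfl, h⟩ := h
    rw [h]
  · obtain ⟨rfl, rfl⟩ := h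
    rfl

theorem src_corner (d : ι × Fin 4 × Bool) : WT.src R (corner d) = linv (letter R d) := by
  obtain ⟨i, p, s⟩ := d
  cases s <;> simp [corner, WT.src, letter, WT.inv, linv]

theorem tgt_corner (d : ι × Fin 4 × Bool) : WT.tgt R (corner d) = letter R (next d) := by
  obtain ⟨i, p, s⟩ := d
  cases s <;> simp [corner, WT.tgt, letter, WT.inv, linv, next]

theorem corner_mir_next (d : ι × Fin 4 × Bool) :
    corner (mir (next d)) = ((corner d).1, (corner d).2.1, !(corner d).2.2) := by
  obtain ⟨i, p, s⟩ := d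
  cases s <;> simp [corner, next, mir]

variable [DecidableEq ι]

theorem flat (W : ι → Fin 4 → ℝ) (h0 : ∀ i q, 0 ≤ W i q) (h2 : ∀ i, ∑ q, W i q ≤ 2)
    (hlink : ∀ (m : ℕ) (γ : ℕ → ι × Fin 4 × Bool), WT.IsClosedReduced R m γ →
      2 ≤ ∑ j ∈ Finset.range m, W (γ j).1 (γ j).2.1) : (tileSys R W h0 h2).Flat := by
  intro l hl hch hcl
  have hm : 0 < l.length := List.length_pos_iff.2 hl
  set m := l.length with hmdef
  have hD : (tileSys R W h0 h2).D = (ι × Fin 4 × Bool) := rfl
  let γ : ℕ → ι × Fin 4 × Bool := fun j => corner (l[j % m]'(Nat.mod_lt j hm))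
  have hglue : ∀ b c : ι × Fin 4 × Bool, (tileSys R W h0 h2).Glue b c →
      WT.tgt R (corner b) = WT.src R (corner c) ∧
        corner c ≠ ((corner b).1, (corner b).2.1, !(corner b).2.2) := by
    rintro b c ⟨h1, h2⟩
    change letter R c = linv (letter R (next b)) at h1
    change c ≠ mir (next b) at h2
    refine ⟨?_, ?_⟩
    · rw [tgt_corner, src_corner, h1, linv_linv]
    · rw [← corner_mir_next]
      intro h
      exact h2 (corner_injective h)
  have hstep : ∀ j, (tileSys R W h0 h2).Glue (l[j % m]'(Nat.mod_lt j hm))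
      (l[(j + 1) % m]'(Nat.mod_lt (j + 1) hm)) := by
    intro j
    by_cases hj : j % m + 1 < m
    · have e : (j + 1) % m = j % m + 1 := by
        rw [Nat.add_mod]
        have : 1 < m := by omega
        rw [Nat.mod_eq_of_lt this, Nat.mod_eq_of_lt hj]
      simp only [e]
      rw [List.isChain_iff_getElem] at hch
      exact hch (j % m) (by omega)
    · have hjm := Nat.mod_lt j hm
      have e0 : j % m = m - 1 := by omega
      have e : (j + 1) % m = 0 := by
        have h3 : (j + 1) % m = (j % m + 1) % m := by simp [Nat.add_mod]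
        rw [h3, e0, Nat.sub_add_cancel hm, Nat.mod_self]
      simp only [e0, e]
      rw [List.getLast_eq_getElem, List.head_eq_getElem] at hcl
      exact hcl
  have hγ : WT.IsClosedReduced R m γ := by
    refine ⟨hm, ?_, ?_, ?_⟩
    · intro j
      simp only [γ, Nat.add_mod_right]
    · intro j
      exact (hglue _ _ (hstep j)).1
    · intro j
      exact (hglue _ _ (hstep j)).2
  have h3 := hlink m γ hγ
  refine h3.trans (le_of_eq ?_)
  have h4 : ∀ j ∈ Finset.range m, W (γ j).1 (γ j).2.1
      = (fun j => if h : j < m then (tileSys R W h0 h2).wt (l[j]'h) else 0) j := by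
    intro j hj
    rw [Finset.mem_range] at hj
    simp only [γ, dif_pos hj, Nat.mod_eq_of_lt hj]
    rfl
  rw [Finset.sum_congr rfl h4, Finset.sum_range]
  simp only [Fin.is_lt, dif_pos]
  have h5 := List.sum_ofFn (f := fun i : Fin m => (tileSys R W h0 h2).wt (l[(i : ℕ)]'i.2))
  rw [← h5]
  congr 1
  apply List.ext_getElem
  · simp [hmdef]
  · intro n h6 h7
    simp

end Squares

end Pool.Agent.RandomLOT
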