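import Pool.Agent.RandomLOT.Blocks

/-!
# Blocks: the fans between consecutive boundary edges, and the curvature inequality
-/

set_option autoImplicit false

open scoped BigOperators

namespace Pool.Agent.RandomLOT

open Pool.Agent.FoxAsph

namespace TileSys

variable {X ι : Type} [DecidableEq ι] {rel : ι → Word X} (S : TileSys rel)

/-- corner `c` can follow corner `b` in a reduced walk around a vertex -/
def Glue (b c : S.D) : Prop := S.letter c = linv (S.letter (S.next b)) ∧ c ≠ S.mir (S.next b)

/-- there is a reduced path of corners from `a` to `b` of weight `ω` -/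
def Fan (a b : S.D) (ω : ℝ) : Prop :=
  ∃ l : List S.D, ∃ hl : l ≠ [], l.IsChain S.Glue ∧ l.head hl = a ∧ l.getLast hl = b ∧
    (l.map S.wt).sum = ω

/-- the weight condition: closed reduced walks around a vertex have weight at least 2 -/
def Flat : Prop := ∀ l : List S.D, ∀ hl : l ≠ [], l.IsChain S.Glue →
  S.Glue (l.getLast hl) (l.head hl) → 2 ≤ (l.map S.wt).sum

variable {S}

theorem fan_single (d : S.D) : S.Fan d d (S.wt d) :=
  ⟨[d], by simp, by simp, by simp, by simp, by simp⟩

theorem Fan.append {a b c d : S.D} {ω ω' : ℝ} (h : S.Fan a b ω) (h' : S.Fan c d ω')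
    (hg : S.Glue b c) : S.Fan a d (ω + ω') := by
  obtain ⟨l, hl, h1, h2, h3, h4⟩ := h
  obtain ⟨l', hl', h1', h2', h3', h4'⟩ := h'
  refine ⟨l ++ l', by simp [hl], ?_, ?_, ?_, ?_⟩
  · rw [List.isChain_append]
    refine ⟨h1, h1', ?_⟩
    intro x hx y hy
    rw [List.getLast?_eq_some_getLast hl, Option.mem_some_iff] at hx
    rw [List.head?_eq_some_head hl', Option.mem_some_iff] at hy
    rw [← hx, ← hy, h3, h2']; exact hg
  · rw [List.head_append_of_ne_nil hl, h2]
  · rw [List.getLast_append_of_ne_nil _ hl', h3']
  · rw [List.map_append, List.sum_append, h4, h4']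

theorem Fan.nonneg {a b : S.D} {ω : ℝ} (h : S.Fan a b ω) : 0 ≤ ω := by
  obtain ⟨l, _, _, _, _, h4⟩ := h
  rw [← h4]
  apply List.sum_nonneg
  intro x hx
  rw [List.mem_map] at hx
  obtain ⟨d, _, rfl⟩ := hx
  exact S.wt_nonneg d

theorem Fan.closed (hS : S.Flat) {a b : S.D} {ω : ℝ} (h : S.Fan a b ω) (hg : S.Glue b a) :
    2 ≤ ω := by
  obtain ⟨l, hl, h1, h2, h3, h4⟩ := h
  rw [← h4]
  exact hS l hl h1 (by rw [h3, h2]; exact hg)

variable (S) in
/-- a boundary edge (first corner of the fan after it), the last corner of the fan, and the weight of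
the fan -/
structure Tok where
  /-- dart of the boundary edge -/
  a : S.D
  /-- last corner of the fan after the boundary edge -/
  b : S.D
  /-- weight of the fan -/
  ω : ℝ

/-- The geometric data of a block: fans, cyclic adjacency and the curvature inequality. -/
structure Geo (T : List S.Tok) : Prop where
  fan : ∀ t ∈ T, S.Fan t.a t.b t.ω
  cyc : T.map (fun t => S.next t.b) = (T.map fun t => t.a).rotate 1
  gb : 2 ≤ (T.map fun t => 1 - t.ω).sum

theorem Geo.rot {t : S.Tok} {T : List S.Tok} (h : Geo (t :: T)) : Geo (T ++ [t]) := by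
  refine ⟨?_, ?_, ?_⟩
  · intro u hu
    apply h.fan
    simpa [or_comm] using hu
  · have := h.cyc
    simp only [List.map_cons, List.rotate_cons_succ, List.rotate_zero] at this
    simp only [List.map_append, List.map_cons, List.map_nil]
    rw [← this]
    simp
  · have := h.gb
    simp only [List.map_cons, List.sum_cons] at this
    simp only [List.map_append, List.map_cons, List.map_nil, List.sum_append, List.sum_cons,
      List.sum_nil]
    linarith

theorem Geo.merge {P Q : List S.Tok} {s t u v : S.Tok} (h : Geo (P ++ [s, t]))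
    (h' : Geo (u :: (Q ++ [v]))) (hl : S.letter u.a = linv (S.letter t.a))
    (hm : u.a ≠ S.mir t.a) :
    Geo (P ++ ⟨s.a, u.b, s.ω + u.ω⟩ :: (Q ++ [⟨v.a, t.b, v.ω + t.ω⟩])) := by
  have hc' := h'.cyc
  have hc := h.cyc
  simp only [List.map_cons, List.rotate_cons_succ, List.rotate_zero, List.map_append,
    List.map_nil] at hc'
  have e1 : S.next u.b :: List.map (fun t => S.next t.b) Q = List.map (fun t => t.a) Q ++ [v.a] ∧
      [S.next v.b] = [u.a] := by
    rw [← List.cons_append] at hc'
    exact List.append_inj' hc' rfl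
  obtain ⟨e1, e2⟩ := e1
  rw [List.cons.injEq] at e2
  have e2 := e2.1
  have hst : S.next s.b = t.a := by
    cases P with
    | nil =>
      simp at hc
      exact hc.1
    | cons p P =>
      simp only [List.map_cons, List.rotate_cons_succ, List.rotate_zero, List.map_append,
        List.map_nil, List.cons_append] at hc
      have : (S.next p.b :: List.map (fun t => S.next t.b) P) ++ [S.next s.b, S.next t.b]
          = (List.map (fun t => t.a) P ++ [s.a]) ++ [t.a, p.a] := by
        simpa using hc
      have := (List.append_inj' this rfl).2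
      simp at this
      exact this.1
  refine ⟨?_, ?_, ?_⟩
  · intro x hx
    have hs := h.fan s (by simp)
    have ht := h.fan t (by simp)
    have hu := h'.fan u (by simp)
    have hv := h'.fan v (by simp)
    rw [List.mem_append, List.mem_cons, List.mem_append, List.mem_singleton] at hx
    rcases hx with hx | rfl | hx | rfl
    · exact h.fan x (by simp [hx])
    · exact hs.append hu ⟨by rw [hst, hl], by rw [hst]; exact hm⟩
    · exact h'.fan x (by simp [hx])
    · refine hv.append ht ⟨by rw [e2, hl, linv_linv], ?_⟩
      rw [e2]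
      intro hh
      apply hm
      rw [hh, S.mir_mir]
  · cases P with
    | nil =>
      simp at hc
      simp only [List.nil_append, List.map_cons, List.rotate_cons_succ, List.rotate_zero,
        List.map_append, List.map_nil]
      rw [← List.cons_append, e1, hc.2]
    | cons p P =>
      simp only [List.map_cons, List.rotate_cons_succ, List.rotate_zero, List.map_append,
        List.map_nil, List.cons_append] at hc
      have h3 : (S.next p.b :: List.map (fun t => S.next t.b) P) ++ [S.next s.b, S.next t.b]
          = (List.map (fun t => t.a) P ++ [s.a]) ++ [t.a, p.a] := by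
        simpa using hc
      have h4 := (List.append_inj' h3 rfl).2
      have h5 := (List.append_inj' h3 rfl).1
      simp at h4
      simp only [List.map_cons, List.rotate_cons_succ, List.rotate_zero, List.map_append,
        List.map_nil, List.cons_append]
      have h6 : S.next p.b :: (List.map (fun t => S.next t.b) P ++ S.next u.b ::
          (List.map (fun t => S.next t.b) Q ++ [S.next t.b]))
          = (S.next p.b :: List.map (fun t => S.next t.b) P) ++
            ((S.next u.b :: List.map (fun t => S.next t.b) Q) ++ [S.next t.b]) := by simp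
      rw [h6, h5, e1, h4.2]
      simp
  · have g1 := h.gb
    have g2 := h'.gb
    simp only [List.map_append, List.map_cons, List.map_nil, List.sum_append, List.sum_cons,
      List.sum_nil] at g1 g2 ⊢
    linarith

theorem Geo.adj3 {P : List S.Tok} {s t u : S.Tok} (h : Geo (P ++ [s, t, u])) :
    S.next s.b = t.a ∧ S.next t.b = u.a := by
  have hc := h.cyc
  cases P with
  | nil =>
    simp at hc
    exact ⟨hc.1, hc.2.1⟩
  | cons p P =>
    simp only [List.map_cons, List.rotate_cons_succ, List.rotate_zero, List.map_append,
      List.map_nil, List.cons_append] at hc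
    have h3 : (S.next p.b :: List.map (fun t => S.next t.b) P) ++
        [S.next s.b, S.next t.b, S.next u.b]
        = (List.map (fun t => t.a) P ++ [s.a]) ++ [t.a, u.a, p.a] := by
      simpa using hc
    have h4 := (List.append_inj' h3 rfl).2
    simp at h4
    exact ⟨h4.1, h4.2.1⟩

theorem Geo.fold (hS : S.Flat) {P : List S.Tok} {s t u : S.Tok} (h : Geo (P ++ [s, t, u]))
    (hl : S.letter u.a = linv (S.letter t.a)) (hm : u.a ≠ S.mir t.a) :
    Geo (P ++ [⟨s.a, u.b, s.ω + u.ω⟩]) := by
  obtain ⟨hst, htu⟩ := h.adj3
  have hs := h.fan s (by simp)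
  have ht := h.fan t (by simp)
  have hu := h.fan u (by simp)
  have h2 : 2 ≤ t.ω := by
    apply ht.closed hS
    refine ⟨by rw [htu, hl, linv_linv], ?_⟩
    rw [htu]
    intro hh
    apply hm
    rw [hh, S.mir_mir]
  refine ⟨?_, ?_, ?_⟩
  · intro x hx
    rw [List.mem_append, List.mem_singleton] at hx
    rcases hx with hx | rfl
    · exact h.fan x (by simp [hx])
    · exact hs.append hu ⟨by rw [hst, hl], by rw [hst]; exact hm⟩
  · have hc := h.cyc
    cases P with
    | nil =>
      simp at hc
      simp [hc.2.2]
    | cons p P =>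
      simp only [List.map_cons, List.rotate_cons_succ, List.rotate_zero, List.map_append,
        List.map_nil, List.cons_append] at hc
      have h3 : (S.next p.b :: List.map (fun t => S.next t.b) P) ++
          [S.next s.b, S.next t.b, S.next u.b]
          = (List.map (fun t => t.a) P ++ [s.a]) ++ [t.a, u.a, p.a] := by
        simpa using hc
      have h4 := (List.append_inj' h3 rfl).2
      have h5 := (List.append_inj' h3 rfl).1
      simp at h4
      simp only [List.map_cons, List.rotate_cons_succ, List.rotate_zero, List.map_append,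
        List.map_nil, List.cons_append]
      rw [← List.cons_append, h5, h4.2.2]
  · have g1 := h.gb
    simp only [List.map_append, List.map_cons, List.map_nil, List.sum_append, List.sum_cons,
      List.sum_nil] at g1 ⊢
    linarith

theorem Geo.not_close (hS : S.Flat) {t u : S.Tok} (h : Geo [t, u])
    (hl : S.letter u.a = linv (S.letter t.a)) (hm : u.a ≠ S.mir t.a) : False := by
  have hc := h.cyc
  simp at hc
  have ht := h.fan t (by simp)
  have hu := h.fan u (by simp)
  have h1 : 2 ≤ t.ω := by
    apply ht.closed hS
    refine ⟨by rw [hc.1, hl, linv_linv], ?_⟩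
    rw [hc.1]
    intro hh
    apply hm
    rw [hh, S.mir_mir]
  have h2 : 2 ≤ u.ω := by
    apply hu.closed hS
    refine ⟨by rw [hc.2, hl], ?_⟩
    rw [hc.2]
    exact hm
  have := h.gb
  simp at this
  linarith

theorem Geo.not_single {t : S.Tok} (h : Geo [t]) : False := by
  have ht := (h.fan t (by simp)).nonneg
  have := h.gb
  simp at this
  linarith

variable (S) in
/-- `L` is the boundary word of a block made of `n` tiles of total class `c`, or a thin block. -/
def IsBlock (L : Word X) (n : ℕ) (c : Cls rel) : Prop :=
  (∃ T : List S.Tok, (T.map fun t => S.letter t.a) = L ∧ Geo T ∧ S.Alg (T.map fun t => t.a) n c) ∨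
    (n = 0 ∧ c = 0 ∧ ∃ l, L = [l, linv l])

theorem W_map (T : List S.Tok) :
    S.W (T.map fun t => t.a) = FreeGroup.mk (T.map fun t => S.letter t.a) := by
  unfold W
  rw [List.map_map]
  rfl

theorem mk_pair {Y : Type} (l : Y × Bool) : (FreeGroup.mk [l, linv l] : FreeGroup Y) = 1 := by
  rw [mk_cons, mk_linv, mul_inv_cancel]

theorem IsBlock.pc {L : Word X} {n : ℕ} {c : Cls rel} (h : S.IsBlock L n c) :
    PC rel n (FreeGroup.mk L) c := by
  rcases h with ⟨T, rfl, _, hA⟩ | ⟨rfl, rfl, l, rfl⟩
  · rw [← W_map]; exact hA.pc
  · rw [mk_pair]; exact PC.one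

theorem IsBlock.ne_nil {n : ℕ} {c : Cls rel} (h : S.IsBlock [] n c) : False := by
  rcases h with ⟨T, hT, hG, _⟩ | ⟨_, _, l, hl⟩
  · rw [List.map_eq_nil_iff] at hT
    subst hT
    have := hG.gb
    simp at this
    linarith
  · simp at hl

theorem IsBlock.rot {l : X × Bool} {L : Word X} {n : ℕ} {c : Cls rel} (h : S.IsBlock (l :: L) n c) :
    S.IsBlock (L ++ [l]) n (act rel (FreeGroup.mk [l])⁻¹ c) := by
  rcases h with ⟨T, hT, hG, hA⟩ | ⟨rfl, rfl, l', hl'⟩
  · left
    cases T with
    | nil => simp at hT
    | cons t T =>
      rw [List.map_cons, List.cons.injEq] at hT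
      obtain ⟨rfl, rfl⟩ := hT
      refine ⟨T ++ [t], by simp, hG.rot, ?_⟩
      rw [List.map_append]
      exact hA.rot
  · right
    rw [List.cons.injEq] at hl'
    obtain ⟨rfl, rfl⟩ := hl'
    exact ⟨rfl, act_zero _ _, linv l, by simp⟩

theorem IsBlock.rotAppend {A B : Word X} {n : ℕ} {c : Cls rel} (h : S.IsBlock (A ++ B) n c) :
    S.IsBlock (B ++ A) n (act rel (FreeGroup.mk A)⁻¹ c) := by
  induction A generalizing B c with
  | nil =>
    have : (FreeGroup.mk ([] : Word X))⁻¹ = 1 := by rw [← FreeGroup.one_eq_mk, inv_one]
    rw [this, act_one, List.append_nil]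
    exact h
  | cons a A ih =>
    have h1 := h.rot
    have h2 : A ++ B ++ [a] = A ++ (B ++ [a]) := by simp
    rw [List.append_eq, h2] at h1
    have h3 := ih h1
    rw [mk_cons, mul_inv_rev, act_mul]
    simpa using h3

/-- merging two blocks -/
theorem IsBlock.merge {P Q : Word X} {l : X × Bool} {n m : ℕ} {c c' : Cls rel}
    (h : S.IsBlock (P ++ [l]) n c) (h' : S.IsBlock (linv l :: Q) m c') :
    S.IsBlock (P ++ Q) (n + m) (c + c') ∨
      ∃ k, k < n + m ∧ PC rel k (FreeGroup.mk (P ++ Q)) (c + c') := by
  rcases h with ⟨T, hT, hG, hA⟩ | ⟨rfl, rfl, x, hx⟩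
  · rcases h' with ⟨T', hT', hG', hA'⟩ | ⟨rfl, rfl, x, hx⟩
    · -- both solid
      obtain ⟨P', t, rfl⟩ : ∃ P' t, T = P' ++ [t] := by
        rcases List.eq_nil_or_concat T with rfl | ⟨P', t, h⟩
        · simp at hT
        · exact ⟨P', t, by simpa using h⟩
      rw [List.map_append, List.map_cons, List.map_nil] at hT
      obtain ⟨rfl, ht⟩ := List.append_inj' hT rfl
      rw [List.cons.injEq] at ht
      obtain ⟨ht, -⟩ := ht
      cases T' with
      | nil => simp at hT'
      | cons u Q' =>
        rw [List.map_cons, List.cons.injEq] at hT'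
        obtain ⟨hu, rfl⟩ := hT'
        rw [List.map_append, List.map_cons, List.map_nil] at hA
        rw [List.map_cons] at hA'
        have hl : S.letter u.a = linv (S.letter t.a) := by rw [hu, ht]
        by_cases hm : u.a = S.mir t.a
        · right
          rw [hm] at hA'
          obtain ⟨k, hk, hP⟩ := hA.merge_mir hA'
          refine ⟨k, hk, hP.cast rfl ?_ rfl⟩
          rw [W_map, W_map, mk_append]
        · left
          rcases List.eq_nil_or_concat P' with rfl | ⟨P0, s, hP0⟩
          · exact absurd hG (fun hG => (Geo.not_single (t := t) (by simpa using hG)))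
          · rcases List.eq_nil_or_concat Q' with rfl | ⟨Q0, v, hQ0⟩
            · exact absurd hG' (fun hG => (Geo.not_single (t := u) (by simpa using hG)))
            · have hP0' : P' = P0 ++ [s] := by simpa using hP0
              have hQ0' : Q' = Q0 ++ [v] := by simpa using hQ0
              subst hP0' hQ0'
              have hG1 : Geo (P0 ++ [s, t]) := by simpa using hG
              have hGm := hG1.merge hG' hl hm
              left
              refine ⟨_, ?_, hGm, ?_⟩
              · simp
              · have := hA.merge hA' hl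
                simpa using this
    · left
      rw [List.cons.injEq] at hx
      obtain ⟨rfl, rfl⟩ := hx
      left
      refine ⟨T, ?_, hG, ?_⟩
      · rw [hT]; simp
      · simpa using hA
  · left
    have : P = [x] ∧ l = linv x := by
      have h2 : P ++ [l] = [x] ++ [linv x] := hx
      obtain ⟨h3, h4⟩ := List.append_inj' h2 rfl
      simp at h4
      exact ⟨h3, h4⟩
    obtain ⟨rfl, rfl⟩ := this
    rw [linv_linv] at h'
    simpa using h'

/-- folding a block -/
theorem IsBlock.fold (hS : S.Flat) {P : Word X} {l : X × Bool} {n : ℕ} {c : Cls rel}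
    (h : S.IsBlock (P ++ [l, linv l]) n c) :
    (P = [] ∧ n = 0 ∧ c = 0) ∨ S.IsBlock P n c ∨
      ∃ k, k < n ∧ PC rel k (FreeGroup.mk P) c := by
  rcases h with ⟨T, hT, hG, hA⟩ | ⟨rfl, rfl, x, hx⟩
  · obtain ⟨P', t, u, rfl⟩ : ∃ P' t u, T = P' ++ [t, u] := by
      rcases List.eq_nil_or_concat T with rfl | ⟨P1, u, h1⟩
      · simp at hT
      · rcases List.eq_nil_or_concat P1 with rfl | ⟨P2, t, h2⟩
        · have h1' : T = [u] := by simpa using h1
          subst h1'
          have := congrArg List.length hT
          simp at this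
        · refine ⟨P2, t, u, ?_⟩
          rw [h1, h2]; simp
    rw [List.map_append, List.map_cons, List.map_cons, List.map_nil] at hT
    obtain ⟨rfl, ht⟩ := List.append_inj' hT rfl
    rw [List.cons.injEq, List.cons.injEq] at ht
    obtain ⟨ht, hu, -⟩ := ht
    have hl : S.letter u.a = linv (S.letter t.a) := by rw [hu, ht]
    rw [List.map_append, List.map_cons, List.map_cons, List.map_nil] at hA
    right
    by_cases hm : u.a = S.mir t.a
    · right
      rw [hm] at hA
      obtain ⟨k, hk, hP⟩ := hA.fold_mir
      refine ⟨k, hk, hP.cast rfl ?_ rfl⟩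
      rw [W_map, W_nil, mul_one]
    · left
      rcases List.eq_nil_or_concat P' with rfl | ⟨P0, s, hP0⟩
      · exact absurd hG (fun hG => hG.not_close hS hl hm)
      · have hP0' : P' = P0 ++ [s] := by simpa using hP0
        subst hP0'
        have hG1 : Geo (P0 ++ [s, t, u]) := by simpa using hG
        left
        refine ⟨_, ?_, hG1.fold hS hl hm, ?_⟩
        · simp
        · have := hA.fold hl
          simpa using this
  · left
    have h2 : P ++ [l, linv l] = [] ++ [x, linv x] := hx
    obtain ⟨h3, h4⟩ := List.append_inj' h2 rfl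
    exact ⟨h3, rfl, rfl⟩

end TileSys

end Pool.Agent.RandomLOT
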