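import Pool.Agent.RandomLOT.PC

/-!
# Elements of the kernel of the Fox Jacobian are classes of products of conjugates equal to 1
-/

set_option autoImplicit false

open scoped BigOperators

namespace Pool.Agent.RandomLOT

open Pool.Agent.FoxAsph

namespace Ker

variable {X ι : Type} (rel : ι → Word X)

/-- the abelianised kernel -/
abbrev Ab : Type := Additive (Abelianization (pr rel).ker)

/-- class of an element of the kernel -/
def cl (k : (pr rel).ker) : Ab rel := Additive.ofMul (Abelianization.of k)

theorem cl_mul (k l : (pr rel).ker) : cl rel (k * l) = cl rel k + cl rel l := by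
  simp [cl]

theorem cl_inv (k : (pr rel).ker) : cl rel k⁻¹ = - cl rel k := by
  simp [cl]

theorem cl_one : cl rel 1 = 0 := by
  simp [cl]

theorem cl_conj (k l : (pr rel).ker) : cl rel (k * l * k⁻¹) = cl rel l := by
  rw [cl_mul, cl_mul, cl_inv]; abel

theorem pr_surjective : Function.Surjective (pr rel) := PresentedGroup.mk_surjective _

/-- a section -/
noncomputable def sec (g : Grp rel) : FreeGroup X := Function.surjInv (pr_surjective rel) g

theorem pr_sec (g : Grp rel) : pr rel (sec rel g) = g :=
  Function.surjInv_eq (pr_surjective rel) g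

/-- the loop of `u` at `g` -/
noncomputable def loop (g : Grp rel) (u : FreeGroup X) : (pr rel).ker :=
  ⟨sec rel g * u * (sec rel (g * pr rel u))⁻¹, by
    rw [MonoidHom.mem_ker, map_mul, map_mul, map_inv, pr_sec, pr_sec, mul_inv_cancel]⟩

theorem loop_mul (g : Grp rel) (u v : FreeGroup X) :
    loop rel g (u * v) = loop rel g u * loop rel (g * pr rel u) v := by
  apply Subtype.ext
  simp only [loop, Subgroup.coe_mul, map_mul, ← mul_assoc]
  simp [mul_assoc]

/-- class of the loop of `u` at `g` -/
noncomputable def kp (g : Grp rel) (u : FreeGroup X) : Ab rel := cl rel (loop rel g u)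

theorem kp_mul (g : Grp rel) (u v : FreeGroup X) :
    kp rel g (u * v) = kp rel g u + kp rel (g * pr rel u) v := by
  simp only [kp]
  rw [loop_mul, cl_mul]

theorem kp_one (g : Grp rel) : kp rel g 1 = 0 := by
  have h := kp_mul rel g 1 1
  rw [mul_one, map_one, mul_one] at h
  exact left_eq_add.1 h

theorem kp_inv (g : Grp rel) (u : FreeGroup X) :
    kp rel g u⁻¹ = - kp rel (g * pr rel u⁻¹) u := by
  have h := kp_mul rel g u⁻¹ u
  rw [inv_mul_cancel, kp_one] at h
  exact eq_neg_of_add_eq_zero_left h.symm

/-- the map `ℤ[G] → N^ab` at the generator `x` -/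
noncomputable def phi (x : X) : MonoidAlgebra ℤ (Grp rel) →+ Ab rel :=
  (Finsupp.liftAddHom fun g => zmultiplesHom (Ab rel) (kp rel g (FreeGroup.of x))).comp
    MonoidAlgebra.coeffAddEquiv.toAddMonoidHom

theorem phi_single (x : X) (g : Grp rel) (n : ℤ) :
    phi rel x (MonoidAlgebra.single g n) = n • kp rel g (FreeGroup.of x) := by
  simp [phi]

open Classical in
theorem sum_phi_fox (X0 : Finset X) (u : Word X) (hu : ∀ l ∈ u, l.1 ∈ X0) (g : Grp rel) :
    ∑ x ∈ X0, phi rel x (MonoidAlgebra.single g 1 * fox rel x u) = kp rel g (FreeGroup.mk u) := by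
  induction u generalizing g with
  | nil =>
    have : FreeGroup.mk ([] : Word X) = 1 := rfl
    rw [this, kp_one]
    simp [fox]
  | cons l w ih =>
    obtain ⟨y, b⟩ := l
    have hy : y ∈ X0 := hu (y, b) (by simp)
    have hw : ∀ l ∈ w, l.1 ∈ X0 := fun l hl => hu l (by simp [hl])
    have hmk : FreeGroup.mk ((y, b) :: w) = FreeGroup.mk [(y, b)] * FreeGroup.mk w := by
      rw [FreeGroup.mul_mk]; rfl
    cases b with
    | true =>
      have h1 : ∀ x, MonoidAlgebra.single g (1 : ℤ) * fox rel x ((y, true) :: w)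
          = (if y = x then MonoidAlgebra.single g (1 : ℤ) else 0)
            + MonoidAlgebra.single (g * val rel [(y, true)]) (1 : ℤ) * fox rel x w := by
        intro x
        simp only [fox, mul_add]
        rw [← mul_assoc, MonoidAlgebra.of_apply, MonoidAlgebra.single_mul_single, one_mul]
        congr 1
        split <;> simp
      simp only [h1, map_add, Finset.sum_add_distrib]
      rw [ih hw, hmk, kp_mul]
      congr 1
      have h2 : ∀ x ∈ X0, phi rel x (if y = x then MonoidAlgebra.single g (1 : ℤ) else 0)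
          = if y = x then kp rel g (FreeGroup.of x) else 0 := by
        intro x _
        split
        · rw [phi_single, one_smul]
        · rw [map_zero]
      rw [Finset.sum_congr rfl h2, Finset.sum_ite_eq, if_pos hy]
      rfl
    | false =>
      have h1 : ∀ x, MonoidAlgebra.single g (1 : ℤ) * fox rel x ((y, false) :: w)
          = - (if y = x then MonoidAlgebra.single (g * val rel [(y, false)]) (1 : ℤ) else 0)
            + MonoidAlgebra.single (g * val rel [(y, false)]) (1 : ℤ) * fox rel x w := by
        intro x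
        simp only [fox, mul_add, mul_neg]
        rw [← mul_assoc, MonoidAlgebra.of_apply, MonoidAlgebra.single_mul_single, one_mul]
        congr 2
        split
        · rw [MonoidAlgebra.single_mul_single, one_mul]
        · simp
      simp only [h1, map_add, Finset.sum_add_distrib]
      rw [ih hw, hmk, kp_mul]
      congr 1
      have h2 : ∀ x ∈ X0, phi rel x (-(if y = x then MonoidAlgebra.single
          (g * val rel [(y, false)]) (1 : ℤ) else 0))
          = if y = x then - kp rel (g * val rel [(y, false)]) (FreeGroup.of x) else 0 := by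
        intro x _
        split
        · rw [map_neg, phi_single, one_smul]
        · simp
      rw [Finset.sum_congr rfl h2, Finset.sum_ite_eq, if_pos hy]
      have h3 : FreeGroup.mk [(y, false)] = (FreeGroup.of y)⁻¹ := by
        rw [FreeGroup.of, FreeGroup.inv_mk]; rfl
      rw [h3, kp_inv, ← h3]
      rfl

variable [DecidableEq ι]

/-- the subgroup of products of conjugates -/
def prods : Subgroup (FreeGroup X) where
  carrier := {g | ∃ n c, PC rel n g c}
  one_mem' := ⟨0, 0, PC.one⟩
  mul_mem' := by
    rintro a b ⟨n, c, h⟩ ⟨m, d, h'⟩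
    exact ⟨_, _, h.mul h'⟩
  inv_mem' := by
    rintro a ⟨n, c, h⟩
    exact ⟨_, _, h.inv⟩

instance : (prods rel).Normal := ⟨by
  rintro a ⟨n, c, h⟩ g
  exact ⟨_, _, h.conj g⟩⟩

theorem exists_PC_of_mem_ker (g : FreeGroup X) (hg : pr rel g = 1) : ∃ n c, PC rel n g c := by
  have h1 : g ∈ Subgroup.normalClosure (Set.range fun i => FreeGroup.mk (rel i)) :=
    (QuotientGroup.eq_one_iff (N := Subgroup.normalClosure
      (Set.range fun i => FreeGroup.mk (rel i))) g).1 hg
  have h3 : Subgroup.normalClosure (Set.range fun i => FreeGroup.mk (rel i)) ≤ prods rel := by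
    apply Subgroup.normalClosure_le_normal
    rintro _ ⟨i, rfl⟩
    refine ⟨1, _, (PC.single (rel := rel) 1 i true).cast rfl ?_ rfl⟩
    simp [relE]
  exact h3 h1

/-- the subgroup of elements of the kernel with class 0 -/
def zeros : Subgroup (pr rel).ker where
  carrier := {k | ∃ n, PC rel n (k : FreeGroup X) 0}
  one_mem' := ⟨0, PC.one⟩
  mul_mem' := by
    rintro a b ⟨n, h⟩ ⟨m, h'⟩
    exact ⟨_, (h.mul h').cast rfl rfl (add_zero 0)⟩
  inv_mem' := by
    rintro a ⟨n, h⟩
    exact ⟨_, h.inv.cast rfl rfl neg_zero⟩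

theorem commutator_le_zeros : commutator (pr rel).ker ≤ zeros rel := by
  rw [commutator_def, Subgroup.commutator_le]
  rintro a - b -
  obtain ⟨n, c, h⟩ := exists_PC_of_mem_ker rel a a.2
  obtain ⟨m, d, h'⟩ := exists_PC_of_mem_ker rel b b.2
  refine ⟨_, (((h.mul h').mul h.inv).mul h'.inv).cast rfl ?_ ?_⟩
  · rw [commutatorElement_def]; rfl
  · abel

theorem exists_PC_of_cl (k : (pr rel).ker) (hk : cl rel k = 0) :
    ∃ n, PC rel n (k : FreeGroup X) 0 := by
  have h1 : Abelianization.of k = 1 := by
    simpa [cl] using hk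
  have h2 : k ∈ commutator (pr rel).ker := by
    rwa [← Abelianization.ker_of, MonoidHom.mem_ker]
  exact commutator_le_zeros rel h2

variable [Fintype ι]

/-- the map on classes -/
noncomputable def Phi (X0 : Finset X) : Cls rel →+ Ab rel where
  toFun z := ∑ x ∈ X0, phi rel x (∑ i, z i * fox rel x (rel i))
  map_zero' := by simp
  map_add' := by
    intro z z'
    simp only [Pi.add_apply, add_mul, Finset.sum_add_distrib, map_add]

theorem Phi_act (X0 : Finset X) (hX : ∀ i, ∀ l ∈ rel i, l.1 ∈ X0) (w : FreeGroup X) (i : ι)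
    (s : Bool) (hw : w * relE rel i s * w⁻¹ ∈ (pr rel).ker) :
    Phi rel X0 (act rel w (clsE rel i s)) = cl rel ⟨w * relE rel i s * w⁻¹, hw⟩ := by
  have hk1 : w * (sec rel (pr rel w))⁻¹ ∈ (pr rel).ker := by
    rw [MonoidHom.mem_ker, map_mul, map_inv, pr_sec, mul_inv_cancel]
  have hpos : ∀ hw' : w * FreeGroup.mk (rel i) * w⁻¹ ∈ (pr rel).ker,
      kp rel (pr rel w) (FreeGroup.mk (rel i)) = cl rel ⟨w * FreeGroup.mk (rel i) * w⁻¹, hw'⟩ := by
    intro hw'
    rw [kp, ← cl_conj rel ⟨_, hk1⟩]
    congr 1
    apply Subtype.ext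
    simp only [loop, Subgroup.coe_mul, InvMemClass.coe_inv]
    rw [pr_rel, mul_one]
    group
  have hfin : ∀ (x : X) (a : MonoidAlgebra ℤ (Grp rel)),
      (∑ j, act rel w (Pi.single i 1) j * fox rel x (rel j))
        = MonoidAlgebra.single (pr rel w) 1 * fox rel x (rel i) := by
    intro x _
    rw [Finset.sum_eq_single i]
    · simp [act]
    · intro j _ hj
      simp [act, Pi.single_eq_of_ne hj]
    · intro h
      exact absurd (Finset.mem_univ i) h
  have key : Phi rel X0 (act rel w (Pi.single i 1)) = kp rel (pr rel w) (FreeGroup.mk (rel i)) := by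
    rw [← sum_phi_fox rel X0 (rel i) (hX i)]
    show ∑ x ∈ X0, phi rel x (∑ j, act rel w (Pi.single i 1) j * fox rel x (rel j)) = _
    apply Finset.sum_congr rfl
    intro x _
    rw [hfin x 0]
  cases s with
  | true =>
    have e : clsE rel i true = Pi.single i 1 := by simp [clsE]
    rw [e, key]
    have e2 : relE rel i true = FreeGroup.mk (rel i) := by simp [relE]
    simp only [e2] at hw ⊢
    exact hpos hw
  | false =>
    have e : clsE rel i false = - Pi.single i 1 := by simp [clsE]
    rw [e, act_neg, map_neg, key]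
    have e2 : relE rel i false = (FreeGroup.mk (rel i))⁻¹ := by
      simp only [relE, Bool.false_eq_true, if_false]
    have hw' : w * FreeGroup.mk (rel i) * w⁻¹ ∈ (pr rel).ker := by
      rw [MonoidHom.mem_ker, map_mul, map_mul, pr_rel, map_inv, mul_one, mul_inv_cancel]
    rw [hpos hw', ← cl_inv]
    congr 1
    apply Subtype.ext
    simp only [e2, InvMemClass.coe_inv]
    group

theorem Phi_eq (X0 : Finset X) (hX : ∀ i, ∀ l ∈ rel i, l.1 ∈ X0) {n : ℕ} {g : FreeGroup X}
    {z : Cls rel} (h : PC rel n g z) (hg : g ∈ (pr rel).ker) : Phi rel X0 z = cl rel ⟨g, hg⟩ := by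
  induction h with
  | one =>
    rw [map_zero]
    exact (cl_one rel).symm
  | @cons s w i n g c hP ih =>
    have hg' : g ∈ (pr rel).ker := hP.pr_eq
    have hw : w * relE rel i s * w⁻¹ ∈ (pr rel).ker := by
      rw [MonoidHom.mem_ker, map_mul, map_mul, pr_relE, map_inv, mul_one, mul_inv_cancel]
    rw [map_add, Phi_act rel X0 hX w i s hw, ih hg', ← cl_mul]
    rfl

/-- classes of products of conjugates -/
def classes : AddSubgroup (Cls rel) where
  carrier := {z | ∃ n g, PC rel n g z}
  zero_mem' := ⟨0, 1, PC.one⟩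
  add_mem' := by
    rintro a b ⟨n, g, h⟩ ⟨m, g', h'⟩
    exact ⟨_, _, h.mul h'⟩
  neg_mem' := by
    rintro a ⟨n, g, h⟩
    exact ⟨_, _, h.inv⟩

theorem classes_eq_top (z : Cls rel) : z ∈ classes rel := by
  have h1 : ∀ (i : ι) (a : MonoidAlgebra ℤ (Grp rel)), Pi.single i a ∈ classes rel := by
    intro i a
    induction a using MonoidAlgebra.induction_linear with
    | zero => rw [Pi.single_zero]; exact (classes rel).zero_mem
    | add a b ha hb => rw [Pi.single_add]; exact (classes rel).add_mem ha hb
    | single g n =>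
      have h2 : (Pi.single i (MonoidAlgebra.single g n) : Cls rel)
          = n • (Pi.single i (MonoidAlgebra.single g 1) : Cls rel) := by
        rw [← Pi.single_smul]
        congr 1
        simp
      rw [h2]
      apply (classes rel).zsmul_mem
      obtain ⟨w, rfl⟩ := pr_surjective rel g
      refine ⟨1, _, (PC.single w i true).cast rfl rfl ?_⟩
      funext j
      by_cases hj : j = i
      · subst hj
        simp [act, clsE]
      · simp [act, clsE, Pi.single_eq_of_ne hj]
  rw [← Finset.univ_sum_single z]
  exact (classes rel).sum_mem fun i _ => h1 i _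

end Ker

/-- An element of the kernel of the Fox Jacobian is the class of an identity sequence. -/
theorem exists_PC_of_ker {X ι : Type} [Fintype ι] [DecidableEq ι] (rel : ι → Word X)
    (z : Cls rel) (hz : ∀ x : X, ∑ i, z i * fox rel x (rel i) = 0) : ∃ n, PC rel n 1 z := by
  classical
  obtain ⟨n, g, h⟩ := Ker.classes_eq_top rel z
  let X0 : Finset X := Finset.univ.biUnion fun i => ((rel i).map Prod.fst).toFinset
  have hX : ∀ i, ∀ l ∈ rel i, l.1 ∈ X0 := by
    intro i l hl
    simp only [X0, Finset.mem_biUnion, Finset.mem_univ, true_and, List.mem_toFinset, List.mem_map]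
    exact ⟨i, l, hl, rfl⟩
  have hg : g ∈ (pr rel).ker := h.pr_eq
  have h1 := Ker.Phi_eq rel X0 hX h hg
  have h2 : Ker.Phi rel X0 z = 0 := by
    show ∑ x ∈ X0, Ker.phi rel x (∑ i, z i * fox rel x (rel i)) = 0
    simp only [hz, map_zero, Finset.sum_const_zero]
  rw [h2] at h1
  obtain ⟨m, h3⟩ := Ker.exists_PC_of_cl rel ⟨g, hg⟩ h1.symm
  refine ⟨n + m, (h.mul h3.inv).cast rfl ?_ ?_⟩
  · simp
  · simp

end Pool.Agent.RandomLOT
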