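import Pool.Agent.RandomLOT.Defs

/-!
# Products of conjugates of relators, with their class
-/

set_option autoImplicit false

open scoped BigOperators

namespace Pool.Agent.RandomLOT

open Pool.Agent.FoxAsph

variable {X ι : Type} (rel : ι → Word X)

theorem act_one (c : Cls rel) : act rel 1 c = c := by
  funext i
  simp only [act, map_one, one_mul]

theorem act_mul (g h : FreeGroup X) (c : Cls rel) : act rel (g * h) c = act rel g (act rel h c) := by
  funext i
  simp only [act, map_mul, mul_assoc]

theorem act_add (g : FreeGroup X) (c d : Cls rel) : act rel g (c + d) = act rel g c + act rel g d := by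
  funext i; simp [act, mul_add]

theorem act_neg (g : FreeGroup X) (c : Cls rel) : act rel g (-c) = - act rel g c := by
  funext i; simp [act]

theorem act_sub (g : FreeGroup X) (c d : Cls rel) : act rel g (c - d) = act rel g c - act rel g d := by
  funext i; simp [act, mul_sub]

theorem act_zero (g : FreeGroup X) : act rel g (0 : Cls rel) = 0 := by
  funext i; simp [act]

theorem act_congr {g h : FreeGroup X} (hgh : pr rel g = pr rel h) (c : Cls rel) :
    act rel g c = act rel h c := by
  funext i; simp [act, hgh]

theorem act_of_pr {g : FreeGroup X} (h : pr rel g = 1) (c : Cls rel) : act rel g c = c := by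
  rw [act_congr rel (h := 1) (by simp [h]), act_one]

theorem pr_rel (i : ι) : pr rel (FreeGroup.mk (rel i)) = 1 :=
  PresentedGroup.one_of_mem ⟨i, rfl⟩

theorem pr_relE (i : ι) (s : Bool) : pr rel (relE rel i s) = 1 := by
  cases s
  · simp only [relE, Bool.false_eq_true, if_false, map_inv, pr_rel, inv_one]
  · simp only [relE, if_true, pr_rel]

theorem relE_not (i : ι) (s : Bool) : relE rel i (!s) = (relE rel i s)⁻¹ := by
  cases s
  · simp only [relE, Bool.not_false, if_true, Bool.false_eq_true, if_false, inv_inv]
  · simp only [relE, Bool.not_true, if_true, Bool.false_eq_true, if_false]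

variable [DecidableEq ι]

theorem clsE_not (i : ι) (s : Bool) : clsE rel i (!s) = - clsE rel i s := by
  cases s <;> simp [clsE]

variable {rel}

theorem PC.pr_eq {n : ℕ} {g : FreeGroup X} {c : Cls rel} (h : PC rel n g c) : pr rel g = 1 := by
  induction h with
  | one => simp
  | cons s w i _ ih => simp [ih, pr_relE]

theorem PC.mul {n m : ℕ} {g h : FreeGroup X} {c d : Cls rel} (hg : PC rel n g c)
    (hh : PC rel m h d) : PC rel (n + m) (g * h) (c + d) := by
  induction hg with
  | one => simpa using hh
  | @cons s w i n g c _ ih =>
    have := PC.cons s w i ih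
    have e1 : n + m + 1 = n + 1 + m := by ring
    have e2 : w * relE rel i s * w⁻¹ * (g * h) = w * relE rel i s * w⁻¹ * g * h := by group
    rw [e1, e2, ← add_assoc] at this
    exact this

theorem PC.single (w : FreeGroup X) (i : ι) (s : Bool) :
    PC rel 1 (w * relE rel i s * w⁻¹) (act rel w (clsE rel i s)) := by
  have := PC.cons (rel := rel) s w i PC.one
  simpa using this

theorem PC.conj {n : ℕ} {g : FreeGroup X} {c : Cls rel} (hg : PC rel n g c) (v : FreeGroup X) :
    PC rel n (v * g * v⁻¹) (act rel v c) := by
  induction hg with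
  | one => simpa [act_zero] using PC.one (rel := rel)
  | @cons s w i n g c _ ih =>
    have := PC.cons s (v * w) i ih
    have e2 : v * w * relE rel i s * (v * w)⁻¹ * (v * g * v⁻¹)
        = v * (w * relE rel i s * w⁻¹ * g) * v⁻¹ := by group
    rw [e2, act_mul, ← act_add] at this
    exact this

theorem PC.inv {n : ℕ} {g : FreeGroup X} {c : Cls rel} (hg : PC rel n g c) :
    PC rel n g⁻¹ (-c) := by
  induction hg with
  | one => simpa using PC.one (rel := rel)
  | @cons s w i n g c _ ih =>
    have := ih.mul (PC.single w i (!s))
    have e2 : g⁻¹ * (w * relE rel i (!s) * w⁻¹) = (w * relE rel i s * w⁻¹ * g)⁻¹ := by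
      rw [relE_not]; group
    rw [e2, clsE_not, act_neg, ← neg_add, add_comm c] at this
    exact this

theorem PC.cast {n m : ℕ} {g h : FreeGroup X} {c d : Cls rel} (hg : PC rel n g c)
    (e1 : n = m) (e2 : g = h) (e3 : c = d) : PC rel m h d := by
  subst e1 e2 e3; exact hg

end Pool.Agent.RandomLOT
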