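import Pool.Agent.RandomLOT.Cactus

/-!
# The weight test for relators of length four
-/

set_option autoImplicit false

open scoped BigOperators

namespace Pool.Agent.RandomLOT

open Pool.Agent.FoxAsph

namespace Squares

variable {X ι : Type}

/-- the relators as words -/
abbrev words (R : ι → Fin 4 → X × Bool) : ι → Word X := fun i => List.ofFn (R i)

theorem words_eq (R : ι → Fin 4 → X × Bool) (i : ι) :
    words R i = [R i 0, R i 1, R i 2, R i 3] := by
  simp [words, List.ofFn_succ]

variable (R : ι → Fin 4 → X × Bool)

/-- the letter of a dart -/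
def letter (d : ι × Fin 4 × Bool) : X × Bool := if d.2.2 then R d.1 d.2.1 else linv (R d.1 d.2.1)

/-- the next dart -/
def next (d : ι × Fin 4 × Bool) : ι × Fin 4 × Bool :=
  if d.2.2 then (d.1, d.2.1 + 1, true) else (d.1, d.2.1 - 1, false)

/-- the same side of the mirror image -/
def mir (d : ι × Fin 4 × Bool) : ι × Fin 4 × Bool := (d.1, d.2.1, !d.2.2)

/-- the word after a positive dart -/
def rho0 (i : ι) (p : Fin 4) : FreeGroup X :=
  FreeGroup.mk [R i (p + 1)] * FreeGroup.mk [R i (p + 2)] * FreeGroup.mk [R i (p + 3)]

/-- the word after a dart -/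
def rho (d : ι × Fin 4 × Bool) : FreeGroup X :=
  if d.2.2 then rho0 R d.1 d.2.1 else (rho0 R d.1 d.2.1)⁻¹

/-- the word before a place -/
def pre (i : ι) : Fin 4 → FreeGroup X
  | 0 => 1
  | 1 => FreeGroup.mk [R i 0]
  | 2 => FreeGroup.mk [R i 0] * FreeGroup.mk [R i 1]
  | 3 => FreeGroup.mk [R i 0] * FreeGroup.mk [R i 1] * FreeGroup.mk [R i 2]

/-- the corner crossed by a dart -/
def corner (d : ι × Fin 4 × Bool) : ι × Fin 4 × Bool :=
  if d.2.2 then d else (d.1, d.2.1 - 1, false)

theorem mk2 (a b : X × Bool) : FreeGroup.mk [a, b] = FreeGroup.mk [a] * FreeGroup.mk [b] := by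
  rw [mk_cons]

theorem mk3 (a b c : X × Bool) :
    FreeGroup.mk [a, b, c] = FreeGroup.mk [a] * FreeGroup.mk [b] * FreeGroup.mk [c] := by
  rw [mk_cons, mk_cons b]; group

theorem mk_words (i : ι) : FreeGroup.mk (words R i)
    = FreeGroup.mk [R i 0] * FreeGroup.mk [R i 1] * FreeGroup.mk [R i 2] * FreeGroup.mk [R i 3] := by
  rw [words_eq, mk_cons, mk_cons (R i 1), mk_cons (R i 2)]; group

theorem pr_words (i : ι) : pr (words R) (FreeGroup.mk [R i 0]) * pr (words R) (FreeGroup.mk [R i 1])
    * pr (words R) (FreeGroup.mk [R i 2]) * pr (words R) (FreeGroup.mk [R i 3]) = 1 := by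
  rw [← map_mul, ← map_mul, ← map_mul, ← mk_words]
  exact pr_rel (words R) i

theorem rot_one {G : Type} [Group G] {a b c d : G} (h : a * b * c * d = 1) :
    b * c * d * a = 1 := by
  have : b * c * d = a⁻¹ := by
    rw [eq_inv_iff_mul_eq_one]
    have h2 := congrArg (fun z => a⁻¹ * z * a) h
    simpa [mul_assoc] using h2
  rw [this]; group

theorem pr_rho0 (i : ι) (p : Fin 4) :
    pr (words R) (rho0 R i p) = (pr (words R) (FreeGroup.mk [R i p]))⁻¹ := by
  rw [eq_inv_iff_mul_eq_one]
  have h0 := pr_words R i
  have h1 := rot_one h0
  have h2 := rot_one h1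
  have h3 := rot_one h2
  fin_cases p
  · simp only [rho0, map_mul]; exact h1
  · simp only [rho0, map_mul]; exact h2
  · simp only [rho0, map_mul]; exact h3
  · simp only [rho0, map_mul]; exact h0

theorem split4 {α : Type} {x0 x1 x2 x3 d : α} {A C : List α} (h : [x0, x1, x2, x3] = A ++ d :: C) :
    (A = [] ∧ d = x0 ∧ C = [x1, x2, x3]) ∨ (A = [x0] ∧ d = x1 ∧ C = [x2, x3]) ∨
      (A = [x0, x1] ∧ d = x2 ∧ C = [x3]) ∨ (A = [x0, x1, x2] ∧ d = x3 ∧ C = []) := by
  rcases A with _ | ⟨a, _ | ⟨b, _ | ⟨c, _ | ⟨e, A⟩⟩⟩⟩
  · simp only [List.nil_append, List.cons.injEq] at h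
    left; exact ⟨rfl, h.1.symm, by simp [h.2]⟩
  · simp only [List.cons_append, List.nil_append, List.cons.injEq] at h
    right; left; exact ⟨by simp [h.1], h.2.1.symm, by simp [h.2.2]⟩
  · simp only [List.cons_append, List.nil_append, List.cons.injEq] at h
    right; right; left; exact ⟨by simp [h.1, h.2.1], h.2.2.1.symm, by simp [h.2.2.2]⟩
  · simp only [List.cons_append, List.nil_append, List.cons.injEq] at h
    right; right; right
    exact ⟨by simp [h.1, h.2.1, h.2.2.1], h.2.2.2.1.symm, h.2.2.2.2.symm⟩
  · simp at h

variable [DecidableEq ι]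

/-- the class of a dart -/
noncomputable def kap (d : ι × Fin 4 × Bool) : Cls (words R) :=
  if d.2.2 then act (words R) (pre R d.1 d.2.1)⁻¹ (clsE (words R) d.1 true)
  else - act (words R) (FreeGroup.mk [R d.1 d.2.1])⁻¹
    (act (words R) (pre R d.1 d.2.1)⁻¹ (clsE (words R) d.1 true))

omit [DecidableEq ι] in
theorem act_rel_inv (i : ι) (g : FreeGroup X) (c : Cls (words R))
    (hg : g = (FreeGroup.mk (words R i))⁻¹) : act (words R) g c = c := by
  rw [hg]
  apply act_of_pr
  rw [map_inv, pr_rel, inv_one]

/-- The tile system of relators of length 4 with weights. -/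
noncomputable def tileSys (W : ι → Fin 4 → ℝ) (h0 : ∀ i q, 0 ≤ W i q)
    (h2 : ∀ i, ∑ q, W i q ≤ 2) : TileSys (words R) where
  D := ι × Fin 4 × Bool
  letter := letter R
  next := next
  mir := mir
  rho := rho R
  kap := kap R
  sg := fun d => d.2.2
  wt := fun d => W (corner d).1 (corner d).2.1
  letter_mir := by
    rintro ⟨i, p, s⟩
    cases s <;> simp [letter, mir]
  mir_mir := by
    rintro ⟨i, p, s⟩
    simp [mir]
  rho_mir := by
    rintro ⟨i, p, s⟩
    cases s <;> simp [rho, mir]
  kap_mir := by
    rintro ⟨i, p, s⟩
    cases s
    · simp only [kap, mir, letter, Bool.not_false, if_true, Bool.false_eq_true, if_false]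
      rw [mk_linv, inv_inv, act_neg, neg_neg, ← act_mul, mul_inv_cancel, act_one]
    · simp only [kap, mir, letter, Bool.not_true, if_true, Bool.false_eq_true, if_false]
  sg_mir := by
    rintro ⟨i, p, s⟩
    rfl
  wt_nonneg := fun d => h0 _ _
  pr_rho := by
    rintro ⟨i, p, s⟩
    cases s
    · simp only [rho, letter, Bool.false_eq_true, if_false]
      rw [mk_linv, inv_inv, map_inv, pr_rho0, inv_inv]
    · simp only [rho, letter, if_true]
      rw [map_inv, pr_rho0]
  tile := by
    intro i s
    have hs := h2 i
    rw [Fin.sum_univ_four] at hs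
    have hw := mk_words R i
    cases s
    · refine ⟨[(i, 3, false), (i, 2, false), (i, 1, false), (i, 0, false)], by simp, ?_, ?_, ?_, ?_,
        ?_⟩
      · simp only [List.map_cons, List.map_nil, letter, Bool.false_eq_true, if_false, relE]
        rw [hw, mk_cons, mk_cons (linv (R i 2)), mk_cons (linv (R i 1)), mk_linv, mk_linv, mk_linv,
          mk_linv]
        group
      · rfl
      · intro d hd
        simp only [List.mem_cons, List.not_mem_nil, or_false] at hd
        rcases hd with rfl | rfl | rfl | rfl <;> rfl
      · simp only [List.map_cons, List.map_nil, corner, Bool.false_eq_true, if_false,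
          List.sum_cons, List.sum_nil]
        have e0 : (0 : Fin 4) - 1 = 3 := rfl
        have e1 : (1 : Fin 4) - 1 = 0 := rfl
        have e2 : (2 : Fin 4) - 1 = 1 := rfl
        have e3 : (3 : Fin 4) - 1 = 2 := rfl
        rw [e0, e1, e2, e3]
        linarith
      · intro A d C h
        rcases split4 h with ⟨rfl, rfl, rfl⟩ | ⟨rfl, rfl, rfl⟩ | ⟨rfl, rfl, rfl⟩ | ⟨rfl, rfl, rfl⟩
        · constructor
          · simp only [List.map_cons, List.map_nil, letter, Bool.false_eq_true, if_false, rho,
              rho0]
            rw [mk3, mk_linv, mk_linv, mk_linv, ← FreeGroup.one_eq_mk]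
            show (FreeGroup.mk [R i 0] * FreeGroup.mk [R i 1] * FreeGroup.mk [R i 2])⁻¹ = _
            group
          · simp only [List.map_cons, List.map_nil, letter, Bool.false_eq_true, if_false, kap, pre,
              clsE, if_true]
            rw [act_neg, ← act_mul, ← act_mul]
            rw [act_rel_inv R i _ _ ?_]
            rw [hw, ← FreeGroup.one_eq_mk]
            group
        · constructor
          · simp only [List.map_cons, List.map_nil, letter, Bool.false_eq_true, if_false, rho,
              rho0]
            rw [mk2, mk_linv, mk_linv, mk_linv]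
            show (FreeGroup.mk [R i 3] * FreeGroup.mk [R i 0] * FreeGroup.mk [R i 1])⁻¹ = _
            group
          · simp only [List.map_cons, List.map_nil, letter, Bool.false_eq_true, if_false, kap, pre,
              clsE, if_true]
            rw [act_neg, ← act_mul, ← act_mul]
            rw [act_rel_inv R i _ _ ?_]
            rw [hw, mk_linv]
            group
        · constructor
          · simp only [List.map_cons, List.map_nil, letter, Bool.false_eq_true, if_false, rho,
              rho0]
            rw [mk2, mk_linv, mk_linv, mk_linv]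
            show (FreeGroup.mk [R i 2] * FreeGroup.mk [R i 3] * FreeGroup.mk [R i 0])⁻¹ = _
            group
          · simp only [List.map_cons, List.map_nil, letter, Bool.false_eq_true, if_false, kap, pre,
              clsE, if_true]
            rw [act_neg, ← act_mul, ← act_mul]
            rw [act_rel_inv R i _ _ ?_]
            rw [hw, mk2, mk_linv, mk_linv]
            group
        · constructor
          · simp only [List.map_cons, List.map_nil, letter, Bool.false_eq_true, if_false, rho,
              rho0]
            rw [mk3, mk_linv, mk_linv, mk_linv, ← FreeGroup.one_eq_mk]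
            show (FreeGroup.mk [R i 1] * FreeGroup.mk [R i 2] * FreeGroup.mk [R i 3])⁻¹ = _
            group
          · simp only [List.map_cons, List.map_nil, letter, Bool.false_eq_true, if_false, kap, pre,
              clsE, if_true]
            rw [act_neg, ← act_mul, ← act_mul]
            rw [act_rel_inv R i _ _ ?_]
            rw [hw, mk3, mk_linv, mk_linv, mk_linv]
            group
    · refine ⟨[(i, 0, true), (i, 1, true), (i, 2, true), (i, 3, true)], by simp, ?_, ?_, ?_, ?_,
        ?_⟩
      · simp only [List.map_cons, List.map_nil, letter, if_true, relE]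
        rw [words_eq]
      · rfl
      · intro d hd
        simp only [List.mem_cons, List.not_mem_nil, or_false] at hd
        rcases hd with rfl | rfl | rfl | rfl <;> rfl
      · simp only [List.map_cons, List.map_nil, corner, if_true,
          List.sum_cons, List.sum_nil]
        linarith
      · intro A d C h
        rcases split4 h with ⟨rfl, rfl, rfl⟩ | ⟨rfl, rfl, rfl⟩ | ⟨rfl, rfl, rfl⟩ | ⟨rfl, rfl, rfl⟩
        · constructor
          · simp only [List.map_cons, List.map_nil, letter, if_true, rho, rho0]
            rw [mk3, ← FreeGroup.one_eq_mk]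
            show FreeGroup.mk [R i 1] * FreeGroup.mk [R i 2] * FreeGroup.mk [R i 3] = _
            group
          · simp only [List.map_nil, kap, pre, if_true]
            rw [← FreeGroup.one_eq_mk, inv_one, act_one, act_one]
        · constructor
          · simp only [List.map_cons, List.map_nil, letter, if_true, rho, rho0]
            rw [mk2]
            show FreeGroup.mk [R i 2] * FreeGroup.mk [R i 3] * FreeGroup.mk [R i 0] = _
            group
          · simp only [List.map_cons, List.map_nil, letter, kap, pre, if_true]
            rw [← act_mul, mul_inv_cancel, act_one]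
        · constructor
          · simp only [List.map_cons, List.map_nil, letter, if_true, rho, rho0]
            rw [mk2]
            show FreeGroup.mk [R i 3] * FreeGroup.mk [R i 0] * FreeGroup.mk [R i 1] = _
            group
          · simp only [List.map_cons, List.map_nil, letter, kap, pre, if_true]
            rw [mk2, ← act_mul, mul_inv_cancel, act_one]
        · constructor
          · simp only [List.map_cons, List.map_nil, letter, if_true, rho, rho0]
            rw [mk3, ← FreeGroup.one_eq_mk]
            show FreeGroup.mk [R i 0] * FreeGroup.mk [R i 1] * FreeGroup.mk [R i 2] = _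
            group
          · simp only [List.map_cons, List.map_nil, letter, kap, pre, if_true]
            rw [mk3, ← act_mul, mul_inv_cancel, act_one]

end Squares

end Pool.Agent.RandomLOT
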