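import Pool.Agent.RandomLOT.FlatSquares
import Pool.Agent.RandomLOT.Ker

/-!
# The weight test for relators of length 4
-/

set_option autoImplicit false

open scoped BigOperators

namespace Pool.Agent.WT

open Pool.Agent.FoxAsph Pool.Agent.RandomLOT

variable {X ι : Type}

/-- The weight test for relators of length 4. -/
theorem weight_test [Fintype ι] (R : ι → Fin 4 → X × Bool) (w : ι → Fin 4 → ℕ) (c : ℕ) (hc : 0 < c)
    (hsum : ∀ i, ∑ q, w i q ≤ c)
    (hlink : ∀ (m : ℕ) (γ : ℕ → ι × Fin 4 × Bool), IsClosedReduced R m γ →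
      c ≤ ∑ j ∈ Finset.range m, w (γ j).1 (γ j).2.1) :
    Aspherical (words R) := by
  classical
  have hc' : (0 : ℝ) < c := by exact_mod_cast hc
  let W : ι → Fin 4 → ℝ := fun i q => 2 / c * w i q
  have h0 : ∀ i q, 0 ≤ W i q := fun i q => by positivity
  have h2 : ∀ i, ∑ q, W i q ≤ 2 := by
    intro i
    have h : (∑ q, (w i q : ℝ)) ≤ c := by exact_mod_cast hsum i
    simp only [W]
    rw [← Finset.mul_sum, div_mul_eq_mul_div, div_le_iff₀ hc']
    nlinarith
  have hl : ∀ (m : ℕ) (γ : ℕ → ι × Fin 4 × Bool), IsClosedReduced R m γ →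
      2 ≤ ∑ j ∈ Finset.range m, W (γ j).1 (γ j).2.1 := by
    intro m γ hγ
    have h : (c : ℝ) ≤ ∑ j ∈ Finset.range m, (w (γ j).1 (γ j).2.1 : ℝ) := by
      exact_mod_cast hlink m γ hγ
    simp only [W]
    rw [← Finset.mul_sum, div_mul_eq_mul_div, le_div_iff₀ hc']
    nlinarith
  have hflat := Squares.flat R W h0 h2 hl
  intro z hz
  obtain ⟨n, hn⟩ := exists_PC_of_ker (words R) z hz
  exact TileSys.weight_test hflat n z hn

end Pool.Agent.WT
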